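import Pool.Agent.Y499.HC.Stm2

/-! # Collars with frames: the definitions -/

set_option autoImplicit false

open Real Set MeasureTheory Metric

namespace Pool.Agent.Q196.FE

open Pool.Agent.Y499.HC Pool.Agent.Y499.HR

variable {d : ℕ}

/-- the great circle through `x` with the direction `w` has constant speed for each slice metric
`g_s` -/
def Circ (R : ℝ) (m : Met d) (x w : E d) : Prop :=
  ∀ s ∈ Ico 0 R, ∀ a b : ℝ, a ^ 2 + b ^ 2 = 1 →
    quad (m.g s (a • x + b • w)) (a • w - b • x) = quad (m.g s x) w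

/-- `w` is an orthonormal basis of the tangent space of the unit sphere at `x`, orthogonal for all
the slice metrics `g_s`, such that the great circles through `x` with the directions `w i` have
constant speeds for all the slice metrics -/
structure Frame {ι : Type} [Fintype ι] (R : ℝ) (m : Met d) (x : E d) (w : ι → E d) : Prop where
  card : Fintype.card ι = d
  perp : ∀ i, inner ℝ x (w i) = 0
  orthn : Orthonormal ℝ w
  diag : ∀ s ∈ Ico 0 R, ∀ c : ι → ℝ,
    quad (m.g s x) (∑ i, c i • w i) = ∑ i, c i ^ 2 * quad (m.g s x) (w i)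
  circ : ∀ i, Circ R m x (w i)

/-- the slices are Riemannian metrics -/
def PosDef (R : ℝ) (m : Met d) : Prop :=
  ∀ s ∈ Ico 0 R, ∀ x : E d, ‖x‖ = 1 → ∀ v : E d, inner ℝ x v = 0 → v ≠ 0 →
    0 < quad (m.g s x) v

/-- the linear maps of `ℝ^(d+1)` -/
abbrev Lin (d : ℕ) : Type := E d →ₗ[ℝ] E d

/-- an orthogonal complex structure on `ℝ^(d+1)` -/
structure Cpx (J : Lin d) : Prop where
  sq : ∀ x, J (J x) = -x
  norm : ∀ x, ‖J x‖ = ‖x‖

/-- the unitary maps -/
def IsU (J : Lin d) (T : E d →ₗᵢ[ℝ] E d) : Prop := ∀ x, T (J x) = J (T x)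

/-- the slices are invariant under the unitary maps -/
def UInv (J : Lin d) (R : ℝ) (m : Met d) : Prop :=
  ∀ T : E d →ₗᵢ[ℝ] E d, IsU J T → ∀ s ∈ Ico 0 R, ∀ x : E d, ‖x‖ = 1 → ∀ v : E d,
    inner ℝ x v = 0 → quad (m.g s (T x)) (T v) = quad (m.g s x) v

end Pool.Agent.Q196.FE

namespace Pool.Agent.Q196.FH

open Pool.Agent.Y499.HC Pool.Agent.Y499.HR

variable {d : ℕ}

/-- the conformal factor is continuous and positive on the collar -/
structure Factor (R : ℝ) (b : ℝ → E d → ℝ) : Prop where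
  cont : ContinuousOn (fun p : ℝ × E d => b p.1 p.2) (Ico 0 R ×ˢ sphere 0 1)
  pos : ∀ s ∈ Ico 0 R, ∀ x : E d, ‖x‖ = 1 → 0 < b s x

/-- the metric `ds² + b(s,x)² g_s` -/
def scale (b : ℝ → E d → ℝ) (m : Met d) : Met d where
  a := fun _ _ => 1
  β := fun _ _ => 0
  g := fun s x => (b s x ^ 2) • m.g s x

end Pool.Agent.Q196.FH

namespace Pool.Agent.Q196.FI

open Pool.Agent.Y499.HC Pool.Agent.Y499.HR Pool.Agent.Q196.FE Pool.Agent.Q196.FH

variable {d : ℕ}

/-- the linear isometries of `ℝ^(d+1)` -/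
abbrev Isom (d : ℕ) : Type := E d ≃ₗᵢ[ℝ] E d

/-- the group of linear isometries `G` is closed -/
def ClosedG (G : Subgroup (Isom d)) : Prop :=
  IsClosed {f : E d → E d | ∃ γ ∈ G, ∀ x, f x = γ x}

/-- the slices are invariant under the group -/
def InvG (G : Subgroup (Isom d)) (R : ℝ) (m : Met d) : Prop :=
  ∀ γ ∈ G, ∀ s ∈ Ico 0 R, ∀ x : E d, ‖x‖ = 1 → ∀ v : E d, inner ℝ x v = 0 →
    quad (m.g s (γ x)) (γ v) = quad (m.g s x) v

/-- along the great circle through `x` with the direction `w` the function `b s` looks the same on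
the orbits of the group -/
def SameG (G : Subgroup (Isom d)) (R : ℝ) (b : ℝ → E d → ℝ) (x w : E d) : Prop :=
  ∀ s ∈ Ico 0 R, ∀ p q : ℝ, p ^ 2 + q ^ 2 = 1 → ∃ κ ∈ G, ∀ γ ∈ G,
    b s (γ (p • x + q • w)) = b s (γ (κ x))

/-- the `g_s` are Riemannian metrics on `S^d`, `d ≥ 2`, `b` is positive, and `ds² + b² g_s` has no
shortcuts between antipodal points of the boundary -/
structure Collar (R : ℝ) (m : Met d) (b : ℝ → E d → ℝ) : Prop where
  dim : 2 ≤ d
  width : 0 < R
  good : Good R m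
  posDef : PosDef R m
  factor : Factor R b
  nonShort : NonShort R (scale b m)

/-- the sharp inequality with its case of equality -/
def Sharp (R : ℝ) (m : Met d) : Prop :=
  hemiCollar d (min R (π / 2)) ≤ vol R m ∧ (R ≤ π / 2 → vol R m = hemiCollar d R → IsRound R m)

end Pool.Agent.Q196.FI
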