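import Pool.Agent.Q196.FE.Tan
import Pool.Agent.Q196.FE.Def

/-! # The test curves -/

set_option autoImplicit false

open Real Set MeasureTheory Metric Filter Topology Module
open scoped ENNReal

namespace Pool.Agent.Q196.FE

open Pool.Agent.Y499.HC Pool.Agent.Y499.HR Pool.Agent.Q196.FD
open Pool.Agent.Z932.HC (hasDerivAt_p hasDerivAt_q contDiff_C contDiff_S hasDerivAt_S)

variable {d : ℕ}

lemma quad_smul (g : Matrix (Fin (d + 1)) (Fin (d + 1)) ℝ) (a : ℝ) (v : E d) :
    quad g (a • v) = a ^ 2 * quad g v := by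
  unfold quad
  rw [Finset.mul_sum]
  refine Finset.sum_congr rfl fun i _ => ?_
  rw [Finset.mul_sum]
  refine Finset.sum_congr rfl fun j _ => ?_
  rw [PiLp.smul_apply, PiLp.smul_apply, smul_eq_mul, smul_eq_mul]
  ring

lemma curve_ineq {R : ℝ} {m : Met d} (hNS : NonShort R m)
    (hF : Fermi R m) {x w : E d} (hcirc : Circ R m x w) {A : ℝ} (hAR : A < R)
    {g v : ℝ → ℝ} (hgc : Continuous g) (hgp : ∀ t, 0 < g t)
    (hg : ∀ a ∈ Icc 0 A, g a ^ 2 = quad (m.g a x) w)
    (hv : ∀ t, HasDerivAt v (g (v t)) t) (hvm : Monotone v) (hvu : ∀ a, v (uu g a) = a)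
    (hx : ‖x‖ = 1) (hw : ‖w‖ = 1) (hin : inner ℝ x w = 0) {α : ℝ}
    (hαA : α ∈ Ioo 0 (Real.arctan (Real.sinh (uu g A)))) :
    π ≤ ∫ τ in (0 : ℝ)..π, g (cv v α τ) / C α τ := by
  have hα : α ∈ Ioo 0 (π / 2) := ⟨hαA.1, hαA.2.trans (Real.arctan_lt_pi_div_two _)⟩
  have hin' : inner ℝ w x = 0 := by rw [real_inner_comm]; exact hin
  have hC := C_pos' hα
  have hC2 := C_sq' hα
  have hy : ∀ t, HasDerivAt (fun τ => (Real.cos τ / C α τ) • x +
      (Real.cos α * Real.sin τ / C α τ) • w)
      ((Real.cos α / C α t ^ 2) • ((Real.cos t / C α t) • w -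
        (Real.cos α * Real.sin t / C α t) • x)) t := by
    intro t
    have h1 := ((hasDerivAt_p hα t).smul_const x).add ((hasDerivAt_q hα t).smul_const w)
    refine h1.congr_deriv ?_
    module
  have hyc : ContDiff ℝ 1 (fun τ => (Real.cos τ / C α τ) • x +
      (Real.cos α * Real.sin τ / C α τ) • w) := by
    have h0 : ∀ t, C α t ≠ 0 := fun t => (hC t).ne'
    exact ((Real.contDiff_cos.div (contDiff_C hα) h0).smul contDiff_const).add
      (((contDiff_const.mul Real.contDiff_sin).div (contDiff_C hα) h0).smul contDiff_const)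
  have hpq : ∀ t, (Real.cos t / C α t) ^ 2 + (Real.cos α * Real.sin t / C α t) ^ 2 = 1 := by
    intro t
    have h0 := (hC t).ne'
    have h2 := hC2 t
    have h3 := sin_sq_add_cos_sq α
    have h4 := sin_sq_add_cos_sq t
    field_simp
    rw [h2]
    linear_combination (Real.sin t ^ 2) * h3 + h4
  have hC0 : C α 0 = 1 := by
    unfold C
    simp
  have hCπ : C α π = 1 := by
    unfold C
    simp
  have hyn : ∀ t, ‖(Real.cos t / C α t) • x + (Real.cos α * Real.sin t / C α t) • w‖ = 1 := by
    intro t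
    have h1 : ‖(Real.cos t / C α t) • x + (Real.cos α * Real.sin t / C α t) • w‖ ^ 2 = 1 ^ 2 := by
      rw [norm_add_sq_real, inner_smul_left, inner_smul_right, hin, norm_smul, norm_smul, hx, hw,
        mul_pow, mul_pow, Real.norm_eq_abs, Real.norm_eq_abs, sq_abs, sq_abs]
      have h := hpq t
      simp only [mul_zero, add_zero, one_pow, mul_one]
      exact h
    exact (sq_eq_sq₀ (norm_nonneg _) zero_le_one).1 h1
  have hS0 : v (Real.arsinh (Real.tan 0)) = 0 := by
    have h := hvu 0
    rw [uu_zero] at h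
    rw [Real.tan_zero, Real.arsinh_zero, h]
  have hrange : ∀ t ∈ Icc 0 π, cv v α t ∈ Icc 0 A := by
    intro t ht
    have hS := S_mem hα ht
    have h1 : 0 ≤ Real.tan (S α t) :=
      Real.tan_nonneg_of_nonneg_of_le_pi_div_two hS.1 (hS.2.trans hα.2.le)
    have h2 : Real.tan (S α t) ≤ Real.sinh (uu g A) := by
      have h3 : S α t ≤ Real.arctan (Real.sinh (uu g A)) := hS.2.trans hαA.2.le
      have h4 : Real.tan (S α t) ≤ Real.tan (Real.arctan (Real.sinh (uu g A))) := by
        rcases h3.eq_or_lt with h5 | h5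
        · rw [h5]
        · exact (Real.tan_lt_tan_of_lt_of_lt_pi_div_two (by linarith [hS.1, pi_pos])
            (Real.arctan_lt_pi_div_two _) h5).le
      rwa [Real.tan_arctan] at h4
    constructor
    · have h5 : v (Real.arsinh (Real.tan 0)) ≤ cv v α t := by
        refine hvm ?_
        rw [Real.tan_zero]
        exact Real.arsinh_le_arsinh.2 h1
      rwa [hS0] at h5
    · have h5 : cv v α t ≤ v (Real.arsinh (Real.sinh (uu g A))) :=
        hvm (Real.arsinh_le_arsinh.2 h2)
      rwa [Real.arsinh_sinh, hvu] at h5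
  have hmain := hNS π (cv v α) _ pi_pos (contDiff_cv hgc hv hα) hyc ?_ ?_ ?_ ?_ ?_
  · refine hmain.trans (le_of_eq ?_)
    refine intervalIntegral.integral_congr fun t ht => ?_
    rw [uIcc_of_le pi_pos.le] at ht
    have hr := hrange t ht
    have hr' : cv v α t ∈ Ico 0 R := ⟨hr.1, hr.2.trans_lt hAR⟩
    rw [(hasDerivAt_cv hv hα t).deriv, (hy t).deriv]
    have hF' := hF _ hr' _ (mem_sphere_zero_iff_norm.2 (hyn t))
    have hperp : inner ℝ ((Real.cos t / C α t) • x + (Real.cos α * Real.sin t / C α t) • w)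
        ((Real.cos α / C α t ^ 2) • ((Real.cos t / C α t) • w -
          (Real.cos α * Real.sin t / C α t) • x)) = 0 := by
      simp only [inner_smul_left, inner_smul_right, inner_add_left, inner_sub_right, hin, hin',
        real_inner_self_eq_norm_sq, hx, hw, conj_trivial]
      ring
    have hd := hcirc _ hr' _ _ (hpq t)
    have hd2 : quad (m.g (cv v α t) ((Real.cos t / C α t) • x +
        (Real.cos α * Real.sin t / C α t) • w)) ((Real.cos α / C α t ^ 2) •
        ((Real.cos t / C α t) • w - (Real.cos α * Real.sin t / C α t) • x)) =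
        g (cv v α t) ^ 2 * (Real.cos α / C α t ^ 2) ^ 2 := by
      rw [quad_smul, hd, hg _ hr]
      ring
    unfold Met.sq
    rw [hd2, hF'.1, hF'.2 _ hperp]
    have hCt := hC t
    have hgt := hgp (cv v α t)
    rw [show (1 : ℝ) * (g (cv v α t) * (Real.sin α * Real.cos t / C α t ^ 2)) ^ 2 +
        2 * (g (cv v α t) * (Real.sin α * Real.cos t / C α t ^ 2)) * 0 +
        g (cv v α t) ^ 2 * (Real.cos α / C α t ^ 2) ^ 2 = (g (cv v α t) / C α t) ^ 2 from ?_]
    · exact Real.sqrt_sq (by positivity)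
    · have h2 := hC2 t
      have h3 := sin_sq_add_cos_sq α
      have h4 := sin_sq_add_cos_sq t
      field_simp
      rw [h2]
      linear_combination g (cv v α t) * h3 + g (cv v α t) * Real.sin α ^ 2 * h4
  · intro t ht
    have hr := hrange t ht
    exact ⟨hr.1, hr.2.trans_lt hAR⟩
  · intro t
    rw [mem_sphere_zero_iff_norm]
    exact hyn t
  · unfold cv S
    rw [Real.sin_zero, mul_zero, Real.arcsin_zero]
    exact hS0
  · unfold cv S
    rw [Real.sin_pi, mul_zero, Real.arcsin_zero]
    exact hS0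
  · simp only [hC0, hCπ]
    simp

end Pool.Agent.Q196.FE
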