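import Pool.Agent.Q196.FE.Fac

/-! # The determinant of a diagonal form -/

set_option autoImplicit false

open Real Set MeasureTheory Metric Filter Topology Module Matrix
open scoped ENNReal

namespace Pool.Agent.Q196.FE

open Pool.Agent.Y499.HC Pool.Agent.Y499.HR

variable {d : ℕ}

/-- the form `g(u - ⟨x,u⟩ x) + ⟨x,u⟩²` -/
noncomputable def MM (g : Matrix (Fin (d + 1)) (Fin (d + 1)) ℝ) (x : E d) :
    Matrix (Fin (d + 1)) (Fin (d + 1)) ℝ :=
  (1 - Matrix.of fun i j => x i * x j) * g * (1 - Matrix.of fun i j => x i * x j) +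
    Matrix.of fun i j => x i * x j

lemma xx_symm (x : E d) : (Matrix.of fun i j => x i * x j : Matrix (Fin (d + 1)) (Fin (d + 1)) ℝ)ᵀ =
    Matrix.of fun i j => x i * x j := by
  ext i j
  simp [mul_comm]

lemma MM_symm {g : Matrix (Fin (d + 1)) (Fin (d + 1)) ℝ} (hg : g.IsSymm) (x : E d) :
    (MM g x)ᵀ = MM g x := by
  unfold MM
  rw [Matrix.transpose_add, Matrix.transpose_mul, Matrix.transpose_mul, Matrix.transpose_sub,
    Matrix.transpose_one, xx_symm, hg.eq, Matrix.mul_assoc]

/-- the bilinear form of a matrix -/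
noncomputable def bil (M : Matrix (Fin (d + 1)) (Fin (d + 1)) ℝ) (u w : E d) : ℝ :=
  ∑ i, ∑ j, M i j * u i * w j

lemma bil_add_left (M : Matrix (Fin (d + 1)) (Fin (d + 1)) ℝ) (u u' w : E d) :
    bil M (u + u') w = bil M u w + bil M u' w := by
  unfold bil
  rw [← Finset.sum_add_distrib]
  refine Finset.sum_congr rfl fun i _ => ?_
  rw [← Finset.sum_add_distrib]
  refine Finset.sum_congr rfl fun j _ => ?_
  rw [PiLp.add_apply]
  ring

lemma bil_add_right (M : Matrix (Fin (d + 1)) (Fin (d + 1)) ℝ) (u w w' : E d) :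
    bil M u (w + w') = bil M u w + bil M u w' := by
  unfold bil
  rw [← Finset.sum_add_distrib]
  refine Finset.sum_congr rfl fun i _ => ?_
  rw [← Finset.sum_add_distrib]
  refine Finset.sum_congr rfl fun j _ => ?_
  rw [PiLp.add_apply]
  ring

lemma bil_comm {M : Matrix (Fin (d + 1)) (Fin (d + 1)) ℝ} (hM : Mᵀ = M) (u w : E d) :
    bil M u w = bil M w u := by
  unfold bil
  rw [Finset.sum_comm]
  refine Finset.sum_congr rfl fun i _ => Finset.sum_congr rfl fun j _ => ?_
  have h : M j i = M i j := by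
    have := congrFun (congrFun hM i) j
    rwa [Matrix.transpose_apply] at this
  rw [h]
  ring

lemma inner_toLin (M : Matrix (Fin (d + 1)) (Fin (d + 1)) ℝ) (u w : E d) :
    inner ℝ u (Matrix.toEuclideanLin M w) = bil M u w := by
  rw [PiLp.inner_apply]
  unfold bil
  refine Finset.sum_congr rfl fun i _ => ?_
  simp only [RCLike.inner_apply, conj_trivial, Matrix.toEuclideanLin_apply, Matrix.mulVec,
    dotProduct]
  rw [Finset.sum_mul]
  refine Finset.sum_congr rfl fun j _ => ?_
  ring

lemma bil_self_MM (g : Matrix (Fin (d + 1)) (Fin (d + 1)) ℝ) (x u : E d) :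
    bil (MM g x) u u = quad g (u - (inner ℝ x u : ℝ) • x) + (inner ℝ x u) ^ 2 := by
  have hin : (inner ℝ x u : ℝ) = ∑ i, x i * u i := by
    rw [PiLp.inner_apply]
    refine Finset.sum_congr rfl fun i _ => ?_
    simp [mul_comm]
  set P : Matrix (Fin (d + 1)) (Fin (d + 1)) ℝ := 1 - Matrix.of fun i j => x i * x j with hP
  have hPT : Pᵀ = P := by
    rw [hP, Matrix.transpose_sub, Matrix.transpose_one, xx_symm]
  have hPu : P *ᵥ (u : Fin (d + 1) → ℝ) = (u - (inner ℝ x u : ℝ) • x : E d) := by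
    rw [hP, Matrix.sub_mulVec, Matrix.one_mulVec]
    ext i
    simp only [Pi.sub_apply, Matrix.mulVec, dotProduct, Matrix.of_apply, PiLp.sub_apply,
      PiLp.smul_apply, smul_eq_mul]
    rw [hin, Finset.sum_mul]
    congr 1
    refine Finset.sum_congr rfl fun j _ => ?_
    ring
  have hb : ∀ (M : Matrix (Fin (d + 1)) (Fin (d + 1)) ℝ) (v : E d),
      bil M v v = (v : Fin (d + 1) → ℝ) ⬝ᵥ (M *ᵥ (v : Fin (d + 1) → ℝ)) := by
    intro M v
    unfold bil
    simp only [dotProduct, Matrix.mulVec]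
    refine Finset.sum_congr rfl fun i _ => ?_
    rw [Finset.mul_sum]
    refine Finset.sum_congr rfl fun j _ => ?_
    ring
  rw [hb]
  unfold MM
  rw [Matrix.add_mulVec, dotProduct_add]
  congr 1
  · rw [← Matrix.mulVec_mulVec, ← Matrix.mulVec_mulVec, hPu]
    have h1 : (u : Fin (d + 1) → ℝ) ⬝ᵥ (P *ᵥ (g *ᵥ (u - (inner ℝ x u : ℝ) • x : E d))) =
        (P *ᵥ (u : Fin (d + 1) → ℝ)) ⬝ᵥ (g *ᵥ (u - (inner ℝ x u : ℝ) • x : E d)) := by
      rw [Matrix.dotProduct_mulVec, ← Matrix.mulVec_transpose, hPT]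
    rw [h1, hPu]
    unfold quad
    simp only [dotProduct, Matrix.mulVec]
    refine Finset.sum_congr rfl fun i _ => ?_
    rw [Finset.mul_sum]
    refine Finset.sum_congr rfl fun j _ => ?_
    ring
  · rw [hin, sq, Finset.sum_mul_sum]
    simp only [dotProduct, Matrix.mulVec, Matrix.of_apply]
    refine Finset.sum_congr rfl fun i _ => ?_
    rw [Finset.mul_sum]
    refine Finset.sum_congr rfl fun j _ => ?_
    ring

lemma bil_add_self {M : Matrix (Fin (d + 1)) (Fin (d + 1)) ℝ} (hM : Mᵀ = M) (u w : E d) :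
    bil M (u + w) (u + w) = bil M u u + 2 * bil M u w + bil M w w := by
  rw [bil_add_left, bil_add_right, bil_add_right, bil_comm hM w u]
  ring

variable {ι : Type} [Fintype ι]

lemma exists_ob {x : E d} (hx : ‖x‖ = 1) {w : ι → E d} (hcard : Fintype.card ι = d)
    (hp : ∀ i, inner ℝ x (w i) = 0) (hw : Orthonormal ℝ w) :
    ∃ ob : OrthonormalBasis (Option ι) ℝ (E d), ob none = x ∧ ∀ i, ob (some i) = w i := by
  classical
  have h1 : Orthonormal ℝ fun o : Option ι => o.elim x w := by
    rw [orthonormal_iff_ite]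
    rintro (_ | i) (_ | j)
    · simp [hx]
    · simpa using hp j
    · have : inner ℝ (w i) x = 0 := by rw [real_inner_comm]; exact hp i
      simpa using this
    · have := orthonormal_iff_ite.1 hw i j
      simpa using this
  have hc : Fintype.card (Option ι) = finrank ℝ (E d) := by
    rw [Fintype.card_option, hcard, finrank_euclideanSpace, Fintype.card_fin]
  have hsp := (h1.linearIndependent.span_eq_top_of_card_eq_finrank hc).ge
  refine ⟨OrthonormalBasis.mk h1 hsp, ?_, fun i => ?_⟩
  · rw [OrthonormalBasis.coe_mk]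
    rfl
  · rw [OrthonormalBasis.coe_mk]
    rfl

section

variable {g : Matrix (Fin (d + 1)) (Fin (d + 1)) ℝ} {x : E d} {w : ι → E d}

lemma bil_value (hg : g.IsSymm) (hx : ‖x‖ = 1) (hp : ∀ i, inner ℝ x (w i) = 0)
    (h : ∀ c : ι → ℝ, quad g (∑ i, c i • w i) = ∑ i, c i ^ 2 * quad g (w i))
    (a b : ℝ) (c e : ι → ℝ) :
    bil (MM g x) (a • x + ∑ i, c i • w i) (b • x + ∑ i, e i • w i) =
      ∑ i, c i * e i * quad g (w i) + a * b := by
  have hQ : ∀ (a : ℝ) (c : ι → ℝ),
      bil (MM g x) (a • x + ∑ i, c i • w i) (a • x + ∑ i, c i • w i) =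
        ∑ i, c i ^ 2 * quad g (w i) + a ^ 2 := by
    intro a c
    have h1 : inner ℝ x (a • x + ∑ i, c i • w i) = a := by
      rw [inner_add_right, inner_smul_right, real_inner_self_eq_norm_sq, hx, inner_sum,
        Finset.sum_eq_zero fun i _ => by rw [inner_smul_right, hp i, mul_zero]]
      ring
    rw [bil_self_MM, h1, add_sub_cancel_left, h c]
  have h1 := hQ (a + b) (fun i => c i + e i)
  have h2 := hQ a c
  have h3 := hQ b e
  have h4 : (a + b) • x + ∑ i, (c i + e i) • w i =
      (a • x + ∑ i, c i • w i) + (b • x + ∑ i, e i • w i) := by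
    simp only [add_smul, Finset.sum_add_distrib]
    abel
  rw [h4, bil_add_self (MM_symm hg x), h2, h3] at h1
  have h5 : ∑ i, (c i + e i) ^ 2 * quad g (w i) = ∑ i, c i ^ 2 * quad g (w i) +
      2 * ∑ i, c i * e i * quad g (w i) + ∑ i, e i ^ 2 * quad g (w i) := by
    rw [Finset.mul_sum, ← Finset.sum_add_distrib, ← Finset.sum_add_distrib]
    refine Finset.sum_congr rfl fun i _ => ?_
    ring
  rw [h5] at h1
  linarith

/-- the eigenvalues -/
def lam (g : Matrix (Fin (d + 1)) (Fin (d + 1)) ℝ) (w : ι → E d) : Option ι → ℝ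
  | none => 1
  | some i => quad g (w i)

lemma entry [DecidableEq ι] (hg : g.IsSymm) (hx : ‖x‖ = 1) (hp : ∀ i, inner ℝ x (w i) = 0)
    (h : ∀ c : ι → ℝ, quad g (∑ i, c i • w i) = ∑ i, c i ^ 2 * quad g (w i))
    (ob : OrthonormalBasis (Option ι) ℝ (E d)) (ho : ob none = x) (hs : ∀ i, ob (some i) = w i)
    (p q : Option ι) :
    bil (MM g x) (ob p) (ob q) = if p = q then lam g w p else 0 := by
  have hform : ∀ p : Option ι, ob p = (p.elim 1 fun _ => (0 : ℝ)) • x +
      ∑ i, (if p = some i then (1 : ℝ) else 0) • w i := by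
    rintro (_ | i)
    · simp [ho]
    · simp [hs]
  rw [hform p, hform q, bil_value hg hx hp h]
  rcases p with _ | i <;> rcases q with _ | j
  · simp [lam]
  · simp
  · simp
  · by_cases hij : i = j
    · subst hij
      simp [lam]
    · have h1 : ∀ l : ι, (if some i = some l then (1 : ℝ) else 0) *
          (if some j = some l then (1 : ℝ) else 0) * quad g (w l) = 0 := by
        intro l
        by_cases hl : i = l
        · have : ¬ (j = l) := fun h2 => hij (hl.trans h2.symm)
          simp [this]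
        · simp [hl]
      rw [Finset.sum_eq_zero fun l _ => h1 l, if_neg fun h2 => hij (Option.some.inj h2)]
      simp

lemma detTan_eq (hg : g.IsSymm) (hx : ‖x‖ = 1) (hcard : Fintype.card ι = d)
    (hp : ∀ i, inner ℝ x (w i) = 0) (hw : Orthonormal ℝ w)
    (h : ∀ c : ι → ℝ, quad g (∑ i, c i • w i) = ∑ i, c i ^ 2 * quad g (w i)) :
    detTan g x = ∏ i, quad g (w i) := by
  classical
  obtain ⟨ob, ho, hs⟩ := exists_ob hx hcard hp hw
  have hdet : detTan g x = LinearMap.det (Matrix.toEuclideanLin (MM g x)) := by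
    rw [Matrix.toEuclideanLin_eq_toLin, LinearMap.det_toLin]
    rfl
  rw [hdet, ← LinearMap.det_toMatrix ob.toBasis]
  have hmat : LinearMap.toMatrix ob.toBasis ob.toBasis (Matrix.toEuclideanLin (MM g x)) =
      Matrix.diagonal (lam g w) := by
    ext p q
    rw [LinearMap.toMatrix_apply, OrthonormalBasis.coe_toBasis,
      OrthonormalBasis.coe_toBasis_repr_apply, OrthonormalBasis.repr_apply_apply, inner_toLin,
      entry hg hx hp h ob ho hs, Matrix.diagonal_apply]
  rw [hmat, Matrix.det_diagonal, Fintype.prod_option]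
  simp only [lam, one_mul]

end

end Pool.Agent.Q196.FE
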