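import Pool.Agent.Q196.FD.One

/-! # Domination with nonincreasing weights -/

set_option autoImplicit false

open Real Set MeasureTheory Metric Filter Topology
open scoped ENNReal

namespace Pool.Agent.Q196.FE

/-- all the integrals of `q` over `(0, c]`, `c ≤ A`, are at most those of `p` -/
def Dom (A : ℝ) (p q : ℝ → ℝ) : Prop :=
  ∀ c ∈ Icc 0 A, ∫⁻ a in Ioc 0 c, ENNReal.ofReal (q a) ≤ ∫⁻ a in Ioc 0 c, ENNReal.ofReal (p a)

variable {p q W : ℝ → ℝ} {A : ℝ}

lemma level (hW : Continuous W) (hWa : Antitone W) {c : ℝ} (hc : 0 ≤ c) (t : ℝ) :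
    ∃ c' ∈ Icc 0 c, ({a | t < W a} ∩ Ioc 0 c : Set ℝ) =ᵐ[volume] Ioc 0 c' := by
  by_cases h : t < W c
  · refine ⟨c, ⟨hc, le_rfl⟩, Filter.EventuallyEq.of_eq ?_⟩
    refine inter_eq_right.2 fun a ha => ?_
    exact h.trans_le (hWa ha.2)
  · push Not at h
    set T : Set ℝ := {a | W a ≤ t} ∩ Icc 0 c with hT
    have hTc : IsCompact T := isCompact_Icc.inter_left (isClosed_le hW continuous_const)
    have hTn : T.Nonempty := ⟨c, h, hc, le_rfl⟩
    have hmem := hTc.sInf_mem hTn
    refine ⟨sInf T, hmem.2, ?_⟩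
    have h1 : ({a | t < W a} ∩ Ioc 0 c : Set ℝ) = Ioo 0 (sInf T) := by
      ext a
      constructor
      · rintro ⟨h2, h3⟩
        refine ⟨h3.1, ?_⟩
        by_contra h4
        push Not at h4
        exact absurd ((hWa h4).trans hmem.1) (not_le.2 h2)
      · intro h2
        have h3 : a ≤ c := h2.2.le.trans hmem.2.2
        refine ⟨?_, h2.1, h3⟩
        show t < W a
        by_contra h4
        push Not at h4
        have h5 : sInf T ≤ a := csInf_le hTc.bddBelow ⟨h4, h2.1.le, h3⟩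
        exact absurd h2.2 (not_lt.2 h5)
    rw [h1]
    exact Ioo_ae_eq_Ioc

lemma dom_weight (hp : Continuous p) (hq : Continuous q) (hW : Continuous W) (hp0 : ∀ a, 0 ≤ p a)
    (hq0 : ∀ a, 0 ≤ q a) (hW0 : ∀ a, 0 ≤ W a) (hWa : Antitone W) (h : Dom A p q) :
    Dom A (fun a => p a * W a) (fun a => q a * W a) := by
  intro c hc
  have key : ∀ r : ℝ → ℝ, Continuous r → (∀ a, 0 ≤ r a) →
      ∫⁻ a in Ioc 0 c, ENNReal.ofReal (r a * W a) =
      ∫⁻ t in Ioi (0 : ℝ), ∫⁻ a in ({a | t < W a} ∩ Ioc 0 c), ENNReal.ofReal (r a) := by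
    intro r hr hr0
    have hrm : Measurable fun a => ENNReal.ofReal (r a) :=
      ENNReal.measurable_ofReal.comp hr.measurable
    have hWm : Measurable fun a => ENNReal.ofReal (W a) :=
      ENNReal.measurable_ofReal.comp hW.measurable
    have h1 : ∫⁻ a in Ioc 0 c, ENNReal.ofReal (r a * W a) =
        ∫⁻ a, ENNReal.ofReal (W a) ∂((volume.restrict (Ioc 0 c)).withDensity
          fun a => ENNReal.ofReal (r a)) := by
      rw [lintegral_withDensity_eq_lintegral_mul _ hrm hWm]
      refine lintegral_congr fun a => ?_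
      rw [Pi.mul_apply, ENNReal.ofReal_mul (hr0 a)]
    rw [h1, lintegral_eq_lintegral_meas_lt _ (Eventually.of_forall hW0) hW.measurable.aemeasurable]
    refine lintegral_congr fun t => ?_
    have hS : MeasurableSet {a | t < W a} := (isOpen_lt continuous_const hW).measurableSet
    rw [withDensity_apply _ hS, Measure.restrict_restrict hS]
  rw [key p hp hp0, key q hq hq0]
  refine lintegral_mono fun t => ?_
  obtain ⟨c', hc', he⟩ := level hW hWa hc.1 t
  rw [setLIntegral_congr he, setLIntegral_congr he]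
  exact h c' ⟨hc'.1, hc'.2.trans hc.2⟩

/-- powers -/
lemma dom_pow (hp : Continuous p) (hq : Continuous q) (hp0 : ∀ a, 0 ≤ p a) (hq0 : ∀ a, 0 ≤ q a)
    (hqa : Antitone q) (h : Dom A p q) (k : ℕ) (hk : 0 < k) :
    Dom A (fun a => p a ^ k) (fun a => q a ^ k) := by
  obtain ⟨n, rfl⟩ : ∃ n, k = n + 1 := ⟨k - 1, by omega⟩
  have hW : Continuous fun a => q a ^ n := hq.pow n
  have hWa : Antitone fun a => q a ^ n := fun a b hab => pow_le_pow_left₀ (hq0 b) (hqa hab) n
  have h1 := dom_weight hp hq hW hp0 hq0 (fun a => pow_nonneg (hq0 a) n) hWa h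
  intro c hc
  have h2 := h1 c hc
  have hfin : ∫⁻ a in Ioc 0 c, ENNReal.ofReal ((n + 1) * (q a * q a ^ n)) ≠ ⊤ := by
    have hcont : Continuous fun a => ((n : ℝ) + 1) * (q a * q a ^ n) :=
      continuous_const.mul (hq.mul hW)
    have hi : IntegrableOn (fun a => ((n : ℝ) + 1) * (q a * q a ^ n)) (Ioc 0 c) :=
      (hcont.integrableOn_Icc).mono_set Ioc_subset_Icc_self
    have := hi.2
    refine ne_of_lt (lt_of_le_of_lt (lintegral_mono fun a => ?_) this)
    exact Real.ofReal_le_enorm _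
  have hpt : ∀ a, ENNReal.ofReal (q a ^ (n + 1)) + ENNReal.ofReal ((n + 1) * (p a * q a ^ n)) ≤
      ENNReal.ofReal (p a ^ (n + 1)) + ENNReal.ofReal ((n + 1) * (q a * q a ^ n)) := by
    intro a
    have ha := hp0 a
    have hb := hq0 a
    rw [← ENNReal.ofReal_add (by positivity) (by positivity),
      ← ENNReal.ofReal_add (by positivity) (by positivity)]
    refine ENNReal.ofReal_le_ofReal ?_
    have key : ∀ m : ℕ, ∀ x y : ℝ, 0 ≤ x → 0 ≤ y →
        y ^ (m + 1) + (m + 1) * (x * y ^ m) ≤ x ^ (m + 1) + (m + 1) * (y * y ^ m) := by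
      intro m x y hx hy
      induction m with
      | zero => simp; linarith
      | succ m ih =>
        have h3 : 0 ≤ (x - y) * (x ^ (m + 1) - y ^ (m + 1)) := by
          rcases le_total x y with hxy | hxy
          · exact mul_nonneg_of_nonpos_of_nonpos (by linarith)
              (by linarith [pow_le_pow_left₀ hx hxy (m + 1)])
          · exact mul_nonneg (by linarith) (by linarith [pow_le_pow_left₀ hy hxy (m + 1)])
        have h4 := mul_le_mul_of_nonneg_left ih hy
        push_cast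
        have h5 : x ^ (m + 1 + 1) + ((m : ℝ) + 1 + 1) * (y * y ^ (m + 1)) -
            (y ^ (m + 1 + 1) + ((m : ℝ) + 1 + 1) * (x * y ^ (m + 1))) =
            (x - y) * (x ^ (m + 1) - y ^ (m + 1)) +
            (y * (x ^ (m + 1) + ((m : ℝ) + 1) * (y * y ^ m)) -
              y * (y ^ (m + 1) + ((m : ℝ) + 1) * (x * y ^ m))) := by
          ring
        linarith
    have := key n (p a) (q a) ha hb
    exact this
  have h3 := lintegral_mono (μ := volume.restrict (Ioc 0 c)) hpt
  have hm1 : Measurable fun a => ENNReal.ofReal (q a ^ (n + 1)) :=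
    ENNReal.measurable_ofReal.comp (hq.pow _).measurable
  have hm2 : Measurable fun a => ENNReal.ofReal (p a ^ (n + 1)) :=
    ENNReal.measurable_ofReal.comp (hp.pow _).measurable
  rw [lintegral_add_left hm1, lintegral_add_left hm2] at h3
  have h4 : ∫⁻ a in Ioc 0 c, ENNReal.ofReal ((n + 1) * (q a * q a ^ n)) ≤
      ∫⁻ a in Ioc 0 c, ENNReal.ofReal ((n + 1) * (p a * q a ^ n)) := by
    have h5 : ∀ r : ℝ → ℝ, Continuous r → ∫⁻ a in Ioc 0 c, ENNReal.ofReal ((n + 1) * (r a * q a ^ n))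
        = ENNReal.ofReal (n + 1) * ∫⁻ a in Ioc 0 c, ENNReal.ofReal (r a * q a ^ n) := by
      intro r hr
      have hrm : Measurable fun a => ENNReal.ofReal (r a * q a ^ n) :=
        ENNReal.measurable_ofReal.comp (hr.mul hW).measurable
      rw [← lintegral_const_mul _ hrm]
      refine lintegral_congr fun a => ?_
      rw [ENNReal.ofReal_mul (by positivity)]
    rw [h5 q hq, h5 p hp]
    exact mul_le_mul_right h2 _
  have h6 : (∫⁻ a in Ioc 0 c, ENNReal.ofReal (q a ^ (n + 1))) +
      ∫⁻ a in Ioc 0 c, ENNReal.ofReal ((n + 1) * (q a * q a ^ n)) ≤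
      (∫⁻ a in Ioc 0 c, ENNReal.ofReal (p a ^ (n + 1))) +
      ∫⁻ a in Ioc 0 c, ENNReal.ofReal ((n + 1) * (q a * q a ^ n)) :=
    (add_le_add_right h4 _).trans h3
  exact (ENNReal.add_le_add_iff_right hfin).1 h6

end Pool.Agent.Q196.FE
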