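import Pool.Agent.Q196.FE.Crv

/-! # The one-dimensional inequality at one point of the sphere -/

set_option autoImplicit false

open Real Set MeasureTheory Metric Filter Topology Module
open scoped ENNReal

namespace Pool.Agent.Q196.FE

open Pool.Agent.Y499.HC Pool.Agent.Y499.HR Pool.Agent.Q196.FD

section

variable {f : ℝ → ℝ}

lemma hasDerivAt_tanh (hc : Continuous f) (hp : ∀ t, 0 < f t) (a : ℝ) :
    HasDerivAt (fun a => Real.sinh (uu f a) / Real.cosh (uu f a))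
      (1 / f a * (1 / Real.cosh (uu f a)) ^ 2) a := by
  have h2 := hasDerivAt_uu hc hp a
  have h3 := ((Real.hasDerivAt_sinh _).comp a h2).div ((Real.hasDerivAt_cosh _).comp a h2)
    (Real.cosh_pos (uu f a)).ne'
  refine h3.congr_deriv ?_
  have h4 := Real.cosh_sq (uu f a)
  have h5 := (Real.cosh_pos (uu f a)).ne'
  have h6 := (hp a).ne'
  simp only [Function.comp_apply]
  field_simp
  linarith

lemma int_tanh (hc : Continuous f) (hp : ∀ t, 0 < f t) (A : ℝ) :
    ∫ a in (0 : ℝ)..A, 1 / f a * (1 / Real.cosh (uu f a)) ^ 2 =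
      Real.sinh (uu f A) / Real.cosh (uu f A) := by
  have hc2 : Continuous fun a => 1 / f a * (1 / Real.cosh (uu f a)) ^ 2 :=
    (continuous_const.div hc fun t => (hp t).ne').mul ((cont_inv_cosh hc hp).pow 2)
  rw [intervalIntegral.integral_eq_sub_of_hasDerivAt (fun x _ => hasDerivAt_tanh hc hp x)
    (hc2.intervalIntegrable _ _), uu_zero, Real.sinh_zero, zero_div, sub_zero]

end

/-- the comparison function of `f` -/
noncomputable def cc (f : ℝ → ℝ) (A : ℝ) (a : ℝ) : ℝ :=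
  1 / Real.cosh (uu (fun t => f (clp A t)) (clp A a))

lemma cc_agree (f : ℝ → ℝ) {A A' a : ℝ} (h0 : 0 ≤ a) (h1 : a ≤ A) (h2 : a ≤ A') :
    cc f A a = cc f A' a := by
  unfold cc
  rw [clp_eq ⟨h0, h1⟩, clp_eq ⟨h0, h2⟩]
  congr 2
  refine intervalIntegral.integral_congr fun t ht => ?_
  rw [uIcc_of_le h0] at ht
  show 1 / f (clp A t) = 1 / f (clp A' t)
  rw [clp_eq ⟨ht.1, ht.2.trans h1⟩, clp_eq ⟨ht.1, ht.2.trans h2⟩]

variable {d : ℕ}

lemma factor {R : ℝ} (hR : R ≤ π / 2) {m : Met d} (hNS : NonShort R m) (hF : Fermi R m)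
    {x w : E d} (hcirc : Circ R m x w) (hx : ‖x‖ = 1) (hw : ‖w‖ = 1) (hin : inner ℝ x w = 0)
    {f : ℝ → ℝ} (hfq : ∀ s ∈ Ico 0 R, f s ^ 2 = quad (m.g s x) w)
    (hf : ContinuousOn f (Ico 0 R)) (hf0 : ∀ s ∈ Ico 0 R, 0 < f s)
    {A : ℝ} (hA : A ∈ Ico 0 R) :
    Continuous (cc f A) ∧ (∀ a, 0 < cc f A a) ∧ Antitone (cc f A) ∧
      Dom A (cc f A) (fun t => Real.cos (clp A t)) ∧
      Dom A (cc f A) (fun a => 1 / f (clp A a) * cc f A a ^ 2) := by
  have hsub : ∀ t, clp A t ∈ Ico 0 R := fun t =>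
    ⟨(clp_mem hA.1 t).1, (clp_mem hA.1 t).2.trans_lt hA.2⟩
  have hgc : Continuous fun t => f (clp A t) := by
    exact hf.comp_continuous (clp_cont A) hsub
  have hgp : ∀ t, 0 < f (clp A t) := fun t => hf0 _ (hsub t)
  obtain ⟨B, hB⟩ : ∃ B, ∀ t, f (clp A t) ≤ B := by
    have h1 : ContinuousOn f (Icc 0 A) := hf.mono fun s hs => ⟨hs.1, hs.2.trans_lt hA.2⟩
    obtain ⟨B, hB⟩ := (isCompact_Icc.image_of_continuousOn h1).bddAbove
    exact ⟨B, fun t => hB ⟨_, clp_mem hA.1 t, rfl⟩⟩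
  obtain ⟨v, hvu, _, hv, hvm⟩ := exists_inv hgc hgp hB
  have hmonou := uu_strictMono hgc hgp
  have hcurve : ∀ α ∈ Ioo 0 (Real.arctan (Real.sinh (uu (fun t => f (clp A t)) A))),
      π ≤ ∫ τ in (0 : ℝ)..π, f (clp A (cv v α τ)) / C α τ := fun α hα =>
    curve_ineq hNS hF hcirc hA.2 hgc hgp
      (fun a ha => by
        show f (clp A a) ^ 2 = _
        rw [clp_eq ha, hfq a ⟨ha.1, ha.2.trans_lt hA.2⟩]) hv hvm hvu hx hw hin hα
  have hHD : ∀ a ∈ Ioc 0 A, Real.sinh (uu (fun t => f (clp A t)) a) /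
      Real.cosh (uu (fun t => f (clp A t)) a) ≤ GG (fun t => f (clp A t)) a := by
    intro a ha
    refine D_ineq hgc hgp hv hvu ha.1 fun α hα => hcurve α ⟨hα.1, hα.2.trans_le ?_⟩
    exact Real.arctan_strictMono.monotone (Real.sinh_strictMono.monotone
      (hmonou.monotone ha.2))
  have hcc : Continuous (cc f A) := (cont_inv_cosh hgc hgp).comp (clp_cont A)
  have hc0 : ∀ a, 0 < cc f A a := fun a => one_div_pos.2 (Real.cosh_pos _)
  have hca : Antitone (cc f A) := by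
    intro a b hab
    have h1 : ∀ t, 0 ≤ uu (fun t => f (clp A t)) (clp A t) := fun t => by
      have := hmonou.monotone (clp_mem hA.1 t).1
      rwa [uu_zero] at this
    refine one_div_le_one_div_of_le (Real.cosh_pos _) ?_
    rw [Real.cosh_le_cosh, abs_of_nonneg (h1 a), abs_of_nonneg (h1 b)]
    exact hmonou.monotone (clp_mono A hab)
  have hG : ∀ c ∈ Icc 0 A, ∫ a in (0 : ℝ)..c, cc f A a = GG (fun t => f (clp A t)) c := by
    intro c hc
    refine intervalIntegral.integral_congr fun a ha => ?_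
    rw [uIcc_of_le hc.1] at ha
    show 1 / Real.cosh (uu (fun t => f (clp A t)) (clp A a)) = _
    rw [clp_eq ⟨ha.1, ha.2.trans hc.2⟩]
  have hcosc : Continuous fun t => Real.cos (clp A t) := Real.continuous_cos.comp (clp_cont A)
  refine ⟨hcc, hc0, hca, ?_, ?_⟩
  · refine (dom_iff hcc hcosc (fun a => (hc0 a).le) fun a => ?_).2 fun c hc => ?_
    · have h4 := clp_mem hA.1 a
      exact Real.cos_nonneg_of_mem_Icc ⟨by linarith [h4.1, pi_pos],
        h4.2.trans (hA.2.le.trans hR)⟩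
    · rw [hG c hc]
      have h3 : ∫ a in (0 : ℝ)..c, Real.cos (clp A a) = ∫ a in (0 : ℝ)..c, Real.cos a := by
        refine intervalIntegral.integral_congr fun a ha => ?_
        rw [uIcc_of_le hc.1] at ha
        rw [clp_eq ⟨ha.1, ha.2.trans hc.2⟩]
      rw [h3, integral_cos, Real.sin_zero, sub_zero]
      exact sin_le_GG hgc hgp hc.1 (hc.2.trans (hA.2.le.trans hR))
        fun a ha => hHD a ⟨ha.1, ha.2.trans hc.2⟩
  · refine (dom_iff hcc ((continuous_const.div hgc fun a => (hgp a).ne').mul (hcc.pow 2))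
      (fun a => (hc0 a).le) fun a => ?_).2 fun c hc => ?_
    · exact mul_nonneg (one_div_nonneg.2 (hgp a).le) (sq_nonneg _)
    · rw [hG c hc]
      rcases hc.1.eq_or_lt with h0 | h0
      · rw [← h0]
        simp [GG]
      · refine le_trans (le_of_eq ?_) (hHD c ⟨h0, hc.2⟩)
        rw [← int_tanh hgc hgp c]
        refine intervalIntegral.integral_congr fun a ha => ?_
        rw [uIcc_of_le hc.1] at ha
        show 1 / f (clp A a) *
          (1 / Real.cosh (uu (fun t => f (clp A t)) (clp A a))) ^ 2 = _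
        rw [clp_eq ⟨ha.1, ha.2.trans hc.2⟩]

variable {ι : Type} [Fintype ι]

/-- the data at one point: `card ι = d` unit vectors whose great circles have constant speeds -/
structure Dirs (R : ℝ) (m : Met d) (x : E d) (w : ι → E d) (f : ι → ℝ → ℝ) : Prop where
  card : Fintype.card ι = d
  norm : ‖x‖ = 1
  unit : ∀ i, ‖w i‖ = 1
  perp : ∀ i, inner ℝ x (w i) = 0
  circ : ∀ i, Circ R m x (w i)
  val : ∀ i, ∀ s ∈ Ico 0 R, f i s ^ 2 = quad (m.g s x) (w i)
  cont : ∀ i, ContinuousOn (f i) (Ico 0 R)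
  pos : ∀ i, ∀ s ∈ Ico 0 R, 0 < f i s

variable {R : ℝ} {m : Met d} {x : E d} {w : ι → E d} {f : ι → ℝ → ℝ}

lemma fact (hR : R ≤ π / 2) (hNS : NonShort R m) (hF : Fermi R m) (hD : Dirs R m x w f)
    {A : ℝ} (hA : A ∈ Ico 0 R) :
    (∫ θ in (0 : ℝ)..A, Real.cos θ ^ d) +
      (∫ a in (0 : ℝ)..A, dl (fun _ : ι => 1) (fun i => f i (clp A a)) (fun i => cc (f i) A a)) ≤
      ∫ a in (0 : ℝ)..A, ∏ i, f i (clp A a) ^ 1 := by
  classical
  have hsub : ∀ t, clp A t ∈ Ico 0 R := fun t =>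
    ⟨(clp_mem hA.1 t).1, (clp_mem hA.1 t).2.trans_lt hA.2⟩
  have hcos : ∀ t, 0 ≤ Real.cos (clp A t) := fun t => by
    have h4 := clp_mem hA.1 t
    exact Real.cos_nonneg_of_mem_Icc ⟨by linarith [h4.1, pi_pos],
      h4.2.trans (hA.2.le.trans hR)⟩
  have hcosa : Antitone fun t => Real.cos (clp A t) := fun a b hab => by
    have h4 := clp_mem hA.1 a
    have h5 := clp_mem hA.1 b
    exact Real.cos_le_cos_of_nonneg_of_le_pi h4.1
      (by linarith [h5.2, hA.2, hR, pi_pos]) (clp_mono A hab)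
  have hcosc : Continuous fun t => Real.cos (clp A t) := Real.continuous_cos.comp (clp_cont A)
  have hfac := fun i => factor hR hNS hF (hD.circ i) hD.norm (hD.unit i) (hD.perp i) (hD.val i)
    (hD.cont i) (hD.pos i) hA
  have hgc : ∀ i, Continuous fun t => f i (clp A t) := fun i =>
    (hD.cont i).comp_continuous (clp_cont A) hsub
  have hgp : ∀ i t, 0 < f i (clp A t) := fun i t => hD.pos i _ (hsub t)
  have hcP : Continuous fun a => ∏ i, cc (f i) A a ^ 1 :=
    continuous_finset_prod _ fun j _ => (hfac j).1.pow _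
  have hk : ∑ _j : ι, 1 = d := by
    rw [Finset.sum_const, Finset.card_univ, hD.card, smul_eq_mul, mul_one]
  have h2 : ∫ a in (0 : ℝ)..A, Real.cos (clp A a) ^ d ≤
      ∫ a in (0 : ℝ)..A, ∏ i, cc (f i) A a ^ 1 := by
    by_cases hne : Nonempty ι
    · obtain ⟨i₀⟩ := hne
      have h3 := prod_dom (g := fun i => cc (f i) A) (q := fun t => Real.cos (clp A t)) (A := A)
        (k := fun _ => 1)
        (fun i => (hfac i).1) (fun i a => ((hfac i).2.1 a).le) hcosc hcos hcosa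
        (fun i => (hfac i).2.2.2.1) (fun _ => one_pos) i₀ fun i _ => (hfac i).2.2.1
      rw [hk] at h3
      exact (dom_iff hcP (hcosc.pow d)
        (fun a => Finset.prod_nonneg fun j _ => pow_nonneg ((hfac j).2.1 a).le _)
        fun a => pow_nonneg (hcos a) d).1 h3 A ⟨hA.1, le_rfl⟩
    · have he : IsEmpty ι := not_nonempty_iff.1 hne
      have hd0 : d = 0 := by
        rw [← hD.card]
        simp
      simp [hd0]
  have h3 := tan_int' (g := fun i t => f i (clp A t)) (c := fun i => cc (f i) A)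
    (k := fun _ => 1) hA.1 hgc
    (fun i => (hfac i).1) hgp (fun i => (hfac i).2.1) (fun i => (hfac i).2.2.1)
    (fun _ => one_pos) fun i => (hfac i).2.2.2.2
  have h4 : ∫ θ in (0 : ℝ)..A, Real.cos θ ^ d = ∫ a in (0 : ℝ)..A, Real.cos (clp A a) ^ d := by
    refine intervalIntegral.integral_congr fun a ha => ?_
    rw [uIcc_of_le hA.1] at ha
    show _ = Real.cos (clp A a) ^ d
    rw [clp_eq ha]
  rw [h4]
  linarith

lemma lint_prod (hD : Dirs R m x w f) {A : ℝ} (hA : A ∈ Ico 0 R) :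
    ENNReal.ofReal (∫ a in (0 : ℝ)..A, ∏ i, f i (clp A a) ^ 1) =
      ∫⁻ a in Ioc 0 A, ENNReal.ofReal (∏ i, f i a) := by
  have hsub : ∀ t, clp A t ∈ Ico 0 R := fun t =>
    ⟨(clp_mem hA.1 t).1, (clp_mem hA.1 t).2.trans_lt hA.2⟩
  have hgc : ∀ i, Continuous fun t => f i (clp A t) := fun i =>
    (hD.cont i).comp_continuous (clp_cont A) hsub
  have hgp : ∀ i t, 0 < f i (clp A t) := fun i t => hD.pos i _ (hsub t)
  have hpc : Continuous fun a => ∏ i, f i (clp A a) ^ 1 :=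
    continuous_finset_prod _ fun j _ => (hgc j).pow _
  rw [← lint_eq hpc (fun a => Finset.prod_nonneg fun j _ => pow_nonneg (hgp j a).le _) hA.1]
  refine setLIntegral_congr_fun measurableSet_Ioc fun a ha => ?_
  rw [clp_eq ⟨ha.1.le, ha.2⟩]
  simp only [pow_one]

lemma cosd_nonneg (hR : R ≤ π / 2) {A : ℝ} (hA : A ∈ Icc 0 R) :
    0 ≤ ∫ θ in (0 : ℝ)..A, Real.cos θ ^ d := by
  refine intervalIntegral.integral_nonneg hA.1 fun a ha => pow_nonneg ?_ _
  exact Real.cos_nonneg_of_mem_Icc ⟨by linarith [ha.1, pi_pos], ha.2.trans (hA.2.trans hR)⟩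

lemma dl_cont (hR : R ≤ π / 2) (hNS : NonShort R m) (hF : Fermi R m) (hD : Dirs R m x w f)
    {A : ℝ} (hA : A ∈ Ico 0 R) :
    (Continuous fun a => dl (fun _ : ι => 1) (fun i => f i (clp A a))
      (fun i => cc (f i) A a)) ∧
    ∀ a, 0 ≤ dl (fun _ : ι => 1) (fun i => f i (clp A a)) (fun i => cc (f i) A a) := by
  classical
  have hsub : ∀ t, clp A t ∈ Ico 0 R := fun t =>
    ⟨(clp_mem hA.1 t).1, (clp_mem hA.1 t).2.trans_lt hA.2⟩
  have hfac := fun i => factor hR hNS hF (hD.circ i) hD.norm (hD.unit i) (hD.perp i) (hD.val i)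
    (hD.cont i) (hD.pos i) hA
  have hgc : ∀ i, Continuous fun t => f i (clp A t) := fun i =>
    (hD.cont i).comp_continuous (clp_cont A) hsub
  have hgp : ∀ i t, 0 < f i (clp A t) := fun i t => hD.pos i _ (hsub t)
  refine ⟨?_, fun a => dl_nonneg (fun i => hgp i a) fun i => (hfac i).2.1 a⟩
  unfold dl
  exact (continuous_finset_prod _ fun j _ => (hgc j).pow _).sub
    ((continuous_finset_prod _ fun j _ => (hfac j).1.pow _).mul
    (continuous_const.add (continuous_finset_sum _ fun i _ =>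
    continuous_const.mul (continuous_const.sub ((hfac i).1.div (hgc i)
      fun a => (hgp i a).ne')))))

/-- the one-dimensional inequality with the deficit on `[0, A₁]` -/
lemma one_dim_def (hR0 : 0 < R) (hR : R ≤ π / 2) (hNS : NonShort R m) (hF : Fermi R m)
    (hD : Dirs R m x w f) {A₁ : ℝ} (hA₁ : A₁ ∈ Ico 0 R) :
    ENNReal.ofReal (∫ θ in (0 : ℝ)..R, Real.cos θ ^ d) +
      ENNReal.ofReal (∫ a in (0 : ℝ)..A₁,
        dl (fun _ : ι => 1) (fun i => f i (clp A₁ a)) (fun i => cc (f i) A₁ a)) ≤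
      ∫⁻ s in Ioo 0 R, ENNReal.ofReal (∏ i, f i s) := by
  classical
  set D := ∫ a in (0 : ℝ)..A₁, dl (fun _ : ι => 1) (fun i => f i (clp A₁ a))
    (fun i => cc (f i) A₁ a) with hDd
  have hD0 : 0 ≤ D := intervalIntegral.integral_nonneg hA₁.1
    fun a _ => (dl_cont hR hNS hF hD hA₁).2 a
  have h1 : ∀ A ∈ Ioo A₁ R, ENNReal.ofReal (∫ θ in (0 : ℝ)..A, Real.cos θ ^ d) +
      ENNReal.ofReal D ≤ ∫⁻ s in Ioo 0 R, ENNReal.ofReal (∏ i, f i s) := by
    intro A hA
    have hA0 : 0 ≤ A := hA₁.1.trans hA.1.le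
    have hAm : A ∈ Ico 0 R := ⟨hA0, hA.2⟩
    have h5 := fact hR hNS hF hD hAm
    obtain ⟨hdc, hd0⟩ := dl_cont hR hNS hF hD hAm
    have h6 : D ≤ ∫ a in (0 : ℝ)..A, dl (fun _ : ι => 1) (fun i => f i (clp A a))
        (fun i => cc (f i) A a) := by
      have h7 : D = ∫ a in (0 : ℝ)..A₁, dl (fun _ : ι => 1) (fun i => f i (clp A a))
          (fun i => cc (f i) A a) := by
        refine intervalIntegral.integral_congr fun a ha => ?_
        rw [uIcc_of_le hA₁.1] at ha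
        show dl (fun _ : ι => 1) (fun i => f i (clp A₁ a)) (fun i => cc (f i) A₁ a) =
          dl (fun _ : ι => 1) (fun i => f i (clp A a)) (fun i => cc (f i) A a)
        have h8 : (fun i => cc (f i) A₁ a) = fun i => cc (f i) A a :=
          funext fun i => cc_agree (f i) ha.1 ha.2 (ha.2.trans hA.1.le)
        rw [h8, clp_eq ha, clp_eq ⟨ha.1, ha.2.trans hA.1.le⟩]
      rw [h7, ← intervalIntegral.integral_add_adjacent_intervals
        (hdc.intervalIntegrable 0 A₁) (hdc.intervalIntegrable A₁ A)]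
      have h9 : 0 ≤ ∫ a in A₁..A, dl (fun _ : ι => 1) (fun i => f i (clp A a))
          (fun i => cc (f i) A a) :=
        intervalIntegral.integral_nonneg hA.1.le fun a _ => hd0 a
      linarith
    calc ENNReal.ofReal (∫ θ in (0 : ℝ)..A, Real.cos θ ^ d) + ENNReal.ofReal D
        = ENNReal.ofReal ((∫ θ in (0 : ℝ)..A, Real.cos θ ^ d) + D) :=
          (ENNReal.ofReal_add (cosd_nonneg hR ⟨hA0, hA.2.le⟩) hD0).symm
      _ ≤ ENNReal.ofReal (∫ a in (0 : ℝ)..A, ∏ i, f i (clp A a) ^ 1) :=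
          ENNReal.ofReal_le_ofReal (by linarith)
      _ = ∫⁻ a in Ioc 0 A, ENNReal.ofReal (∏ j, f j a) := lint_prod hD hAm
      _ ≤ ∫⁻ s in Ioo 0 R, ENNReal.ofReal (∏ i, f i s) :=
          lintegral_mono_set fun a ha => ⟨ha.1, ha.2.trans_lt hA.2⟩
  have hcontR : Continuous fun A => ENNReal.ofReal (∫ θ in (0 : ℝ)..A, Real.cos θ ^ d) +
      ENNReal.ofReal D :=
    (ENNReal.continuous_ofReal.comp (intervalIntegral.continuous_primitive
      (fun a b => (Real.continuous_cos.pow d).intervalIntegrable a b) 0)).add continuous_const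
  refine le_of_tendsto (hcontR.continuousWithinAt (s := Iio R) (x := R)) ?_
  filter_upwards [Ioo_mem_nhdsLT hA₁.2] with A hA
  exact h1 A hA

/-- the one-dimensional inequality -/
lemma one_dim (hR0 : 0 < R) (hR : R ≤ π / 2) (hNS : NonShort R m) (hF : Fermi R m)
    (hD : Dirs R m x w f) :
    ENNReal.ofReal (∫ θ in (0 : ℝ)..R, Real.cos θ ^ d) ≤
      ∫⁻ s in Ioo 0 R, ENNReal.ofReal (∏ i, f i s) :=
  le_self_add.trans (one_dim_def hR0 hR hNS hF hD ⟨le_rfl, hR0⟩)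

lemma one_dim_eq (hR0 : 0 < R) (hR : R ≤ π / 2) (hNS : NonShort R m) (hF : Fermi R m)
    (hD : Dirs R m x w f)
    (heq : ∫⁻ s in Ioo 0 R, ENNReal.ofReal (∏ i, f i s) ≤
      ENNReal.ofReal (∫ θ in (0 : ℝ)..R, Real.cos θ ^ d)) (i : ι) {s : ℝ} (hs : s ∈ Ico 0 R) :
    f i s = Real.cos s := by
  classical
  obtain ⟨A₁, hA₁, hA₁R⟩ := exists_between hs.2
  have hA₁0 : 0 < A₁ := hs.1.trans_lt hA₁
  have hAm : A₁ ∈ Ico 0 R := ⟨hA₁0.le, hA₁R⟩
  have h2 := one_dim_def hR0 hR hNS hF hD hAm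
  set D := ∫ a in (0 : ℝ)..A₁, dl (fun _ : ι => 1) (fun i => f i (clp A₁ a))
    (fun i => cc (f i) A₁ a) with hDd
  obtain ⟨hdc, hd0⟩ := dl_cont hR hNS hF hD hAm
  have h3 : ENNReal.ofReal D = 0 := by
    have h4 := h2.trans heq
    have h5 : ENNReal.ofReal (∫ θ in (0 : ℝ)..R, Real.cos θ ^ d) + ENNReal.ofReal D ≤
        ENNReal.ofReal (∫ θ in (0 : ℝ)..R, Real.cos θ ^ d) + 0 := by rwa [add_zero]
    exact le_antisymm ((ENNReal.add_le_add_iff_left ENNReal.ofReal_ne_top).1 h5) bot_le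
  have hD1 : D ≤ 0 := ENNReal.ofReal_eq_zero.1 h3
  have hsub : ∀ t, clp A₁ t ∈ Ico 0 R := fun t =>
    ⟨(clp_mem hAm.1 t).1, (clp_mem hAm.1 t).2.trans_lt hAm.2⟩
  have hfac := fun i => factor hR hNS hF (hD.circ i) hD.norm (hD.unit i) (hD.perp i) (hD.val i)
    (hD.cont i) (hD.pos i) hAm
  have hgc : ∀ i, Continuous fun t => f i (clp A₁ t) := fun i =>
    (hD.cont i).comp_continuous (clp_cont A₁) hsub
  have hgp : ∀ i t, 0 < f i (clp A₁ t) := fun i t => hD.pos i _ (hsub t)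
  have hz : ∀ a ∈ Icc 0 A₁, dl (fun _ : ι => 1) (fun i => f i (clp A₁ a))
      (fun i => cc (f i) A₁ a) = 0 := by
    intro a ha
    by_contra hne
    have h4 : 0 < dl (fun _ : ι => 1) (fun i => f i (clp A₁ a)) (fun i => cc (f i) A₁ a) :=
      lt_of_le_of_ne (hd0 a) (Ne.symm hne)
    have h5 := intervalIntegral.integral_pos hA₁0 hdc.continuousOn
      (fun x _ => hd0 x) ⟨a, ha, h4⟩
    linarith
  have h4 := cos_of_eq (hgc i) (hgp i) hs.1 (hs.2.trans_le hR) fun a ha => by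
    have ha1 : a ∈ Icc 0 A₁ := ⟨ha.1, ha.2.trans hA₁.le⟩
    have h5 := eq_of_dl (fun i => hgp i a) (fun i => (hfac i).2.1 a) (fun _ => one_pos)
      (hz a ha1) i
    rw [h5]
    unfold cc
    rw [clp_eq ha1]
  rwa [clp_eq ⟨hs.1, hA₁.le⟩] at h4

end Pool.Agent.Q196.FE
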