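import Pool.Agent.Q196.FE.Unit

/-! # The collar inequality with frames, for collars of all widths -/

set_option autoImplicit false

open Real Set MeasureTheory Metric Filter Topology Module
open scoped ENNReal

namespace Pool.Agent.Q196.FE

open Pool.Agent.Y499.HC Pool.Agent.Y499.HR

variable {d : ℕ} {R : ℝ} {m : Met d}

lemma good_mono {R' : ℝ} (h : R' ≤ R) (hG : Good R m) : Good R' m := by
  have h1 : Ico 0 R' ⊆ Ico 0 R := Ico_subset_Ico_right h
  exact ⟨hG.cont_a.mono (prod_mono h1 le_rfl), hG.cont_β.mono (prod_mono h1 le_rfl),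
    hG.cont_g.mono (prod_mono h1 le_rfl), fun s hs => hG.symm s (h1 hs),
    fun s hs => hG.nonneg s (h1 hs), fun s hs => hG.lapse s (h1 hs)⟩

lemma Frame.mono {ι : Type} [Fintype ι] {x : E d} {w : ι → E d} {R' : ℝ} (h : R' ≤ R)
    (hf : Frame R m x w) : Frame R' m x w := by
  have h1 : Ico 0 R' ⊆ Ico 0 R := Ico_subset_Ico_right h
  exact ⟨hf.card, hf.perp, hf.orthn, fun s hs => hf.diag s (h1 hs),
    fun i s hs => hf.circ i s (h1 hs)⟩

/-- collars of all widths, with frames -/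
theorem frames (hR0 : 0 < R) (hG : Good R m) (hNS : NonShort R m) (hF : Fermi R m)
    (hP : PosDef R m) (hfr : ∀ x : E d, ‖x‖ = 1 → ∃ w : Fin d → E d, Frame R m x w) :
    hemiCollar d (min R (π / 2)) ≤ vol R m ∧
      (R ≤ π / 2 → vol R m = hemiCollar d R → IsRound R m) := by
  refine ⟨?_, fun hR heq => frame_rigid hR0 hR hG hNS hF hP hfr heq⟩
  have h : min R (π / 2) ≤ R := min_le_left _ _
  have h1 : Ico 0 (min R (π / 2)) ⊆ Ico 0 R := Ico_subset_Ico_right h
  refine (frame_volume (lt_min hR0 (by positivity)) (min_le_right _ _) (good_mono h hG)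
    (fun l s y hl hs hy h2 h3 h4 h5 h6 => hNS l s y hl hs hy (fun t ht => h1 (h2 t ht)) h3 h4 h5 h6)
    (fun s hs => hF s (h1 hs)) (fun s hs => hP s (h1 hs))
    (fun x hx => ?_)).trans (lintegral_mono_set (Ioo_subset_Ioo_right h))
  obtain ⟨w, hw⟩ := hfr x hx
  exact ⟨w, hw.mono h⟩

end Pool.Agent.Q196.FE
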