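import Pool.Agent.Y502.HC.Frame

/-! # Averages over a closed transitive group of isometries of the sphere -/

set_option autoImplicit false

open Real Set MeasureTheory Metric
open scoped ENNReal

namespace Pool.Agent.Q196.FE

open Pool.Agent.Y499.HC Pool.Agent.Y502.HC

variable {d : ℕ}

lemma act_coord (g : O d) (x : E d) (i : Fin (d + 1)) :
    act g x i = ∑ j, (g : Matrix (Fin (d + 1)) (Fin (d + 1)) ℝ) i j * x j := by
  rw [act_apply, WithLp.ofLp_sum, Finset.sum_apply]
  refine Finset.sum_congr rfl fun j _ => ?_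
  rw [PiLp.smul_apply, smul_eq_mul, Phi_apply]
  ring

lemma act_mul (g h : O d) (x : E d) : act (g * h) x = act g (act h x) := by
  ext i
  rw [act_coord, act_coord]
  simp only [act_coord]
  have h1 : ∀ j, ((g * h : O d) : Matrix (Fin (d + 1)) (Fin (d + 1)) ℝ) i j =
      ∑ k, (g : Matrix (Fin (d + 1)) (Fin (d + 1)) ℝ) i k *
        (h : Matrix (Fin (d + 1)) (Fin (d + 1)) ℝ) k j := fun j => by
    show ((g : Matrix (Fin (d + 1)) (Fin (d + 1)) ℝ) *
      (h : Matrix (Fin (d + 1)) (Fin (d + 1)) ℝ)) i j = _
    rw [Matrix.mul_apply]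
  simp only [h1, Finset.sum_mul, Finset.mul_sum]
  rw [Finset.sum_comm]
  refine Finset.sum_congr rfl fun k _ => Finset.sum_congr rfl fun j _ => ?_
  ring

lemma actS_mul (g h : O d) (x : Sph d) : actS (g * h) x = actS g (actS h x) :=
  Subtype.ext (act_mul g h x)

/-- `G` is closed and transitive on the unit sphere -/
structure Trans (G : Subgroup (O d)) : Prop where
  closed : IsClosed (G : Set (O d))
  trans : ∀ x y : E d, ‖x‖ = 1 → ‖y‖ = 1 → ∃ g ∈ G, act g x = y

lemma integral_right' {G : Type} [Group G] [TopologicalSpace G] [IsTopologicalGroup G]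
    [CompactSpace G] [MeasurableSpace G] [BorelSpace G] (A : G) {f : G → ℝ} (hf : Continuous f) :
    ∫ g, f (g * A) ∂(Measure.haarMeasure (⊤ : TopologicalSpace.PositiveCompacts G)) =
      ∫ g, f g ∂(Measure.haarMeasure (⊤ : TopologicalSpace.PositiveCompacts G)) := by
  set ν := Measure.haarMeasure (⊤ : TopologicalSpace.PositiveCompacts G) with hν
  have hprob : IsProbabilityMeasure ν := by
    constructor
    have h := Measure.haarMeasure_self (G := G) (K₀ := ⊤)
    simpa [hν] using h
  have : IsProbabilityMeasure (ν.map (· * A)) :=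
    Measure.isProbabilityMeasure_map (measurable_mul_const A).aemeasurable
  have hmap : ν.map (· * A) = ν := Measure.isHaarMeasure_eq_of_isProbabilityMeasure _ _
  have h := integral_map (μ := ν) (φ := (· * A)) (measurable_mul_const A).aemeasurable (f := f)
    hf.aestronglyMeasurable
  rw [hmap] at h
  exact h.symm

lemma cont_orb (G : Subgroup (O d)) {F : Sph d → ℝ} (hF : Continuous F) (x : Sph d) :
    Continuous fun γ : G => F (actS (γ : O d) x) := by
  have h1 : Continuous fun γ : G => ((γ : O d), x) :=
    continuous_subtype_val.prodMk continuous_const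
  have h2 := continuous_actS.comp h1
  exact hF.comp h2

lemma cont_act2 (G : Subgroup (O d)) {F : Sph d → ℝ} (hF : Continuous F) :
    Continuous fun p : G × Sph d => F (actS (p.1 : O d) p.2) := by
  have h1 : Continuous fun p : G × Sph d => ((p.1 : O d), p.2) :=
    (continuous_subtype_val.comp continuous_fst).prodMk continuous_snd
  have h2 := continuous_actS.comp h1
  exact hF.comp h2

lemma inv_orb {G : Subgroup (O d)} [CompactSpace G] {F : Sph d → ℝ} (hF : Continuous F)
    {k : O d} (hk : k ∈ G) (x : Sph d) :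
    ∫ γ : G, F (actS (γ : O d) (actS k x))
        ∂(Measure.haarMeasure (⊤ : TopologicalSpace.PositiveCompacts G)) =
      ∫ γ : G, F (actS (γ : O d) x)
        ∂(Measure.haarMeasure (⊤ : TopologicalSpace.PositiveCompacts G)) := by
  rw [← integral_right' (⟨k, hk⟩ : G) (cont_orb G hF x)]
  refine integral_congr_ae (Filter.Eventually.of_forall fun γ => ?_)
  have h := actS_mul (γ : O d) k x
  have h2 : ((γ * ⟨k, hk⟩ : G) : O d) = (γ : O d) * k := rfl
  simp only
  rw [h2, h]

end Pool.Agent.Q196.FE
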