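import Pool.Agent.Q196.FE.Grp

/-! # Averages over a closed transitive group of isometries of the sphere -/

set_option autoImplicit false

open Real Set MeasureTheory Metric
open scoped ENNReal

namespace Pool.Agent.Q196.FE

open Pool.Agent.Y499.HC Pool.Agent.Y502.HC

variable {d : ℕ}

lemma swap_orb (G : Subgroup (O d)) [CompactSpace G] (ν : Measure G) [IsProbabilityMeasure ν]
    {F : Sph d → ℝ} (hF : Continuous F) :
    ∫ x, ∫ γ : G, F (actS (γ : O d) x) ∂ν ∂(σ d) = ∫ x, F x ∂(σ d) := by
  have hswap : ∫ γ : G, ∫ x, F (actS (γ : O d) x) ∂(σ d) ∂ν =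
      ∫ x, ∫ γ : G, F (actS (γ : O d) x) ∂ν ∂(σ d) := by
    apply integral_integral_swap
    exact (cont_act2 G hF).integrable_of_hasCompactSupport (HasCompactSupport.of_compactSpace _)
  rw [← hswap]
  have : ∀ γ : G, ∫ x, F (actS (γ : O d) x) ∂(σ d) = ∫ x, F x ∂(σ d) := fun γ =>
    integral_actS (γ : O d) hF
  simp only [this]
  rw [integral_const]
  simp

/-- the average over the group of a function on an orbit is its average over the sphere -/
theorem exists_average {G : Subgroup (O d)} (hG : Trans G) :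
    ∃ ν : Measure G, IsProbabilityMeasure ν ∧ ∀ F : Sph d → ℝ, Continuous F → ∀ x : Sph d,
      (σ d).real univ * ∫ γ : G, F (actS (γ : O d) x) ∂ν = ∫ y, F y ∂(σ d) := by
  haveI : CompactSpace G := isCompact_iff_compactSpace.mp hG.closed.isCompact
  have hprob : IsProbabilityMeasure
      (Measure.haarMeasure (⊤ : TopologicalSpace.PositiveCompacts G)) := by
    constructor
    have h := Measure.haarMeasure_self (G := G) (K₀ := ⊤)
    simpa using h
  refine ⟨Measure.haarMeasure (⊤ : TopologicalSpace.PositiveCompacts G), hprob,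
    fun F hF x => ?_⟩
  have hin : ∀ y : Sph d, ∫ γ : G, F (actS (γ : O d) y)
      ∂(Measure.haarMeasure (⊤ : TopologicalSpace.PositiveCompacts G)) =
      ∫ γ : G, F (actS (γ : O d) x)
        ∂(Measure.haarMeasure (⊤ : TopologicalSpace.PositiveCompacts G)) := by
    intro y
    obtain ⟨k, hk, hkx⟩ := hG.trans x y (mem_sphere_zero_iff_norm.1 x.2)
      (mem_sphere_zero_iff_norm.1 y.2)
    have h1 : actS k x = y := Subtype.ext hkx
    rw [← h1]
    exact inv_orb hF hk x
  rw [← swap_orb G (Measure.haarMeasure (⊤ : TopologicalSpace.PositiveCompacts G)) hF]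
  simp only [hin]
  rw [integral_const, smul_eq_mul]

end Pool.Agent.Q196.FE
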