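import Pool.Agent.Q196.FE.Int

/-! # Unitary maps, and invariant quadratic forms -/

set_option autoImplicit false

open Real Set MeasureTheory Metric Filter Topology Module

namespace Pool.Agent.Q196.FE

open Pool.Agent.Y499.HC

variable {d : ℕ}

variable {J : E d →ₗ[ℝ] E d}

lemma Cpx.innerJ (h : Cpx J) (x y : E d) : inner ℝ (J x) (J y) = inner ℝ x y := by
  have h1 := norm_add_sq_real (J x) (J y)
  rw [← map_add, h.norm, h.norm, h.norm, norm_add_sq_real] at h1
  linarith

lemma Cpx.skew (h : Cpx J) (x y : E d) : inner ℝ (J x) y = -inner ℝ x (J y) := by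
  have h1 := h.innerJ x (J y)
  rw [h.sq, inner_neg_right] at h1
  linarith

lemma Cpx.self (h : Cpx J) (x : E d) : inner ℝ x (J x) = 0 := by
  have h1 := h.skew x x
  rw [real_inner_comm] at h1
  linarith

lemma Cpx.self' (h : Cpx J) (x : E d) : inner ℝ (J x) x = 0 := by
  rw [real_inner_comm]
  exact h.self x

/-- a unitary map which takes `u` to `u'` and fixes the vectors which are orthogonal to `u`, `Ju`,
`u'`, `Ju'` -/
lemma exists_U (h : Cpx J) {u u' : E d} (hu : ‖u‖ = 1) (hu' : ‖u'‖ = 1) :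
    ∃ T : E d →ₗᵢ[ℝ] E d, IsU J T ∧ T u = u' ∧
      ∀ z, inner ℝ u z = 0 → inner ℝ (J u) z = 0 → inner ℝ u' z = 0 → inner ℝ (J u') z = 0 →
        T z = z := by
  by_cases hne : u = u'
  · subst hne
    exact ⟨LinearIsometry.id, fun _ => rfl, rfl, fun _ _ _ _ _ => rfl⟩
  obtain ⟨w, hw⟩ : ∃ w, w = u - u' := ⟨_, rfl⟩
  set A : ℝ := inner ℝ w u with hA
  set B : ℝ := inner ℝ (J w) u with hB
  have hww : ‖w‖ ^ 2 = 2 * A := by
    rw [hA, hw, norm_sub_sq_real, hu, hu', inner_sub_left, real_inner_self_eq_norm_sq, hu,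
      real_inner_comm u u']
    ring
  have hA0 : 0 < A := by
    have h1 : w ≠ 0 := by
      rw [hw]
      exact sub_ne_zero.2 hne
    have h2 : 0 < ‖w‖ ^ 2 := by positivity
    linarith
  have hN : 0 < A ^ 2 + B ^ 2 := by positivity
  have hlin : ∀ (a : ℝ) (x y : E d), inner ℝ (a • x) y = a * inner ℝ x y := fun a x y => by
    rw [inner_smul_left]
    simp
  let L : E d →ₗ[ℝ] E d :=
    { toFun := fun z => z - (((inner ℝ w z : ℝ) * A + (inner ℝ (J w) z : ℝ) * B) /
          (A ^ 2 + B ^ 2)) • w -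
        (((inner ℝ (J w) z : ℝ) * A - (inner ℝ w z : ℝ) * B) / (A ^ 2 + B ^ 2)) • J w
      map_add' := by
        intro x y
        rw [inner_add_right, inner_add_right]
        module
      map_smul' := by
        intro a x
        rw [inner_smul_right, inner_smul_right, RingHom.id_apply]
        module }
  have hL : ∀ z, L z = z - (((inner ℝ w z : ℝ) * A + (inner ℝ (J w) z : ℝ) * B) /
          (A ^ 2 + B ^ 2)) • w -
        (((inner ℝ (J w) z : ℝ) * A - (inner ℝ w z : ℝ) * B) / (A ^ 2 + B ^ 2)) • J w :=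
    fun z => rfl
  have hnorm : ∀ z, ‖L z‖ = ‖z‖ := by
    intro z
    have h1 : ‖L z‖ ^ 2 = ‖z‖ ^ 2 := by
      rw [hL]
      set p : ℝ := inner ℝ w z with hp
      set q : ℝ := inner ℝ (J w) z with hq
      set α : ℝ := (p * A + q * B) / (A ^ 2 + B ^ 2) with hα
      set β : ℝ := (q * A - p * B) / (A ^ 2 + B ^ 2) with hβ
      have h2 : ‖z - α • w - β • J w‖ ^ 2 = ‖z‖ ^ 2 - 2 * (α * p + β * q) +
          (α ^ 2 + β ^ 2) * ‖w‖ ^ 2 := by
        rw [norm_sub_sq_real, norm_sub_sq_real, inner_sub_left, inner_smul_right,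
          inner_smul_right, hlin, inner_smul_right, h.self, norm_smul, norm_smul, h.norm,
          real_inner_comm w z, real_inner_comm (J w) z, ← hp, ← hq, mul_pow, mul_pow,
          Real.norm_eq_abs, Real.norm_eq_abs, sq_abs, sq_abs]
        ring
      rw [h2, hww, hα, hβ]
      field_simp
      ring
    exact (sq_eq_sq₀ (norm_nonneg _) (norm_nonneg _)).1 h1
  refine ⟨⟨L, hnorm⟩, fun z => ?_, ?_, fun z h1 h2 h3 h4 => ?_⟩
  · show L (J z) = J (L z)
    rw [hL, hL, h.innerJ, map_sub, map_sub, map_smul, map_smul, h.sq]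
    have h1 : (inner ℝ w (J z) : ℝ) = -inner ℝ (J w) z := by rw [h.skew w z, neg_neg]
    rw [h1]
    module
  · show L u = u'
    rw [hL]
    have h1 : ((inner ℝ w u : ℝ) * A + (inner ℝ (J w) u : ℝ) * B) / (A ^ 2 + B ^ 2) = 1 := by
      rw [← hA, ← hB]
      field_simp
    have h2 : ((inner ℝ (J w) u : ℝ) * A - (inner ℝ w u : ℝ) * B) / (A ^ 2 + B ^ 2) = 0 := by
      rw [← hA, ← hB]
      ring
    rw [h1, h2, hw]
    module
  · show L z = z
    rw [hL]
    have h5 : (inner ℝ w z : ℝ) = 0 := by rw [hw, inner_sub_left, h1, h3, sub_zero]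
    have h6 : (inner ℝ (J w) z : ℝ) = 0 := by rw [hw, map_sub, inner_sub_left, h2, h4, sub_zero]
    rw [h5, h6]
    simp

/-- the unitary maps are transitive on the pairs `(x, w)`, `w` orthogonal to `x` and `Jx` -/
lemma exists_U2 (h : Cpx J) {x y v w : E d} (hx : ‖x‖ = 1) (hy : ‖y‖ = 1) (hv : ‖v‖ = 1)
    (hw : ‖w‖ = 1) (h1 : inner ℝ x v = 0) (h2 : inner ℝ (J x) v = 0) (h3 : inner ℝ y w = 0)
    (h4 : inner ℝ (J y) w = 0) : ∃ T : E d →ₗᵢ[ℝ] E d, IsU J T ∧ T x = y ∧ T v = w := by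
  obtain ⟨T, hT, hTx, _⟩ := exists_U h hx hy
  have h5 : inner ℝ y (T v) = 0 := by rw [← hTx, T.inner_map_map, h1]
  have h6 : inner ℝ (J y) (T v) = 0 := by rw [← hTx, ← hT, T.inner_map_map, h2]
  obtain ⟨S, hS, hSv, hSz⟩ := exists_U h (u := T v) (u' := w) (by rw [T.norm_map, hv]) hw
  refine ⟨S.comp T, fun z => ?_, ?_, hSv⟩
  · show S (T (J z)) = J (S (T z))
    rw [hT, hS]
  · show S (T x) = y
    rw [hTx]
    refine hSz y ?_ ?_ ?_ ?_
    · rw [real_inner_comm]; exact h5
    · rw [h.skew, real_inner_comm, h6, neg_zero]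
    · rw [real_inner_comm]; exact h3
    · rw [h.skew, real_inner_comm, h4, neg_zero]

/-- the reflection at the complex line of `x` -/
lemma exists_refl (h : Cpx J) {x : E d} (hx : ‖x‖ = 1) :
    ∃ T : E d →ₗᵢ[ℝ] E d, IsU J T ∧ T x = x ∧ T (J x) = J x ∧
      ∀ z, inner ℝ x z = 0 → inner ℝ (J x) z = 0 → T z = -z := by
  let L : E d →ₗ[ℝ] E d :=
    { toFun := fun z => (2 * (inner ℝ x z : ℝ)) • x + (2 * (inner ℝ (J x) z : ℝ)) • J x - z
      map_add' := by
        intro y z
        rw [inner_add_right, inner_add_right]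
        module
      map_smul' := by
        intro a y
        rw [inner_smul_right, inner_smul_right, RingHom.id_apply]
        module }
  have hL : ∀ z, L z = (2 * (inner ℝ x z : ℝ)) • x + (2 * (inner ℝ (J x) z : ℝ)) • J x - z :=
    fun z => rfl
  have hlin : ∀ (a : ℝ) (x y : E d), inner ℝ (a • x) y = a * inner ℝ x y := fun a x y => by
    rw [inner_smul_left]
    simp
  have hnorm : ∀ z, ‖L z‖ = ‖z‖ := by
    intro z
    have h1 : ‖L z‖ ^ 2 = ‖z‖ ^ 2 := by
      rw [hL, norm_sub_sq_real, norm_add_sq_real, inner_add_left, hlin, hlin, hlin,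
        inner_smul_right, h.self, norm_smul, norm_smul, h.norm, hx, mul_pow, mul_pow,
        Real.norm_eq_abs, Real.norm_eq_abs, sq_abs, sq_abs]
      ring
    exact (sq_eq_sq₀ (norm_nonneg _) (norm_nonneg _)).1 h1
  refine ⟨⟨L, hnorm⟩, fun z => ?_, ?_, ?_, fun z h1 h2 => ?_⟩
  · show L (J z) = J (L z)
    rw [hL, hL, h.innerJ, map_sub, map_add, map_smul, map_smul, h.sq]
    have h1 : (inner ℝ x (J z) : ℝ) = -inner ℝ (J x) z := by rw [h.skew x z, neg_neg]
    rw [h1]
    module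
  · show L x = x
    rw [hL, real_inner_self_eq_norm_sq, hx, h.self']
    module
  · show L (J x) = J x
    rw [hL, real_inner_self_eq_norm_sq, h.norm, hx, h.self]
    module
  · show L z = -z
    rw [hL, h1, h2]
    module

end Pool.Agent.Q196.FE
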