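import Pool.Agent.Q196.FE.Vol

/-! # The volume inequality and the case of equality: integration over the sphere -/

set_option autoImplicit false

open Real Set MeasureTheory Metric Filter Topology Module
open scoped ENNReal

namespace Pool.Agent.Q196.FE

open Pool.Agent.Y499.HC Pool.Agent.Y499.HR

variable {d : ℕ} {R : ℝ} {m : Met d}

lemma dens_cont (hG : Good R m) : ContinuousOn (fun p : ℝ × Sph d =>
    ENNReal.ofReal (√(detTan (m.g p.1 p.2) p.2))) (Ioo 0 R ×ˢ univ) := by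
  have h1 : ContinuousOn (fun p : ℝ × Sph d => m.g p.1 (p.2 : E d)) (Ioo 0 R ×ˢ univ) := by
    refine hG.cont_g.comp (f := fun p : ℝ × Sph d => (p.1, (p.2 : E d))) ?_ ?_
    · exact (continuous_fst.prodMk (continuous_subtype_val.comp continuous_snd)).continuousOn
    · rintro ⟨s, x⟩ ⟨hs, _⟩
      exact ⟨⟨hs.1.le, hs.2⟩, x.2⟩
  have h2 : ContinuousOn (fun p : ℝ × Sph d => (m.g p.1 (p.2 : E d), (p.2 : E d)))
      (Ioo 0 R ×ˢ univ) :=
    h1.prodMk (continuous_subtype_val.comp continuous_snd).continuousOn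
  have h3 := detTan_continuous.comp_continuousOn h2
  simp only [Function.comp_def] at h3
  have h4 := h3.sqrt
  have h5 := ENNReal.continuous_ofReal.comp_continuousOn h4
  simp only [Function.comp_def] at h5
  exact h5

lemma dens_meas (hG : Good R m) : AEMeasurable (fun p : ℝ × Sph d =>
    ENNReal.ofReal (√(detTan (m.g p.1 p.2) p.2)))
    ((volume.restrict (Ioo 0 R)).prod (σ d)) := by
  have h1 : (volume.restrict (Ioo 0 R)).prod (σ d) =
      ((volume : Measure ℝ).prod (σ d)).restrict (Ioo 0 R ×ˢ univ) := by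
    rw [← Measure.prod_restrict, Measure.restrict_univ]
  rw [h1]
  exact (dens_cont hG).aemeasurable (measurableSet_Ioo.prod MeasurableSet.univ)

lemma vol_swap (hG : Good R m) : vol R m =
    ∫⁻ x : Sph d, ∫⁻ s in Ioo 0 R, ENNReal.ofReal (√(detTan (m.g s x) x)) ∂volume ∂(σ d) := by
  unfold vol
  exact lintegral_lintegral_swap (f := fun s (x : Sph d) =>
    ENNReal.ofReal (√(detTan (m.g s x) x))) (dens_meas hG)

lemma hemi_eq (d : ℕ) (R : ℝ) : hemiCollar d R =
    ∫⁻ _ : Sph d, ENNReal.ofReal (∫ θ in (0 : ℝ)..R, Real.cos θ ^ d) ∂(σ d) := by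
  rw [lintegral_const, mul_comm]
  rfl

/-- the volume inequality -/
theorem frame_volume (hR0 : 0 < R) (hR : R ≤ π / 2) (hG : Good R m) (hNS : NonShort R m)
    (hF : Fermi R m) (hP : PosDef R m)
    (hfr : ∀ x : E d, ‖x‖ = 1 → ∃ w : Fin d → E d, Frame R m x w) :
    hemiCollar d R ≤ vol R m := by
  rw [vol_swap hG, hemi_eq]
  refine lintegral_mono fun x => ?_
  have hx : ‖(x : E d)‖ = 1 := mem_sphere_zero_iff_norm.1 x.2
  obtain ⟨w, hw⟩ := hfr x hx
  exact hw.point hR0 hR hG hNS hF hP hx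

lemma proj_cont (hG : Good R m) {s : ℝ} (hs : s ∈ Ico 0 R) (v : E d) :
    Continuous fun x : Sph d =>
      quad (m.g s x) (v - (inner ℝ (x : E d) v : ℝ) • (x : E d)) := by
  have h1 : Continuous fun x : Sph d => m.g s (x : E d) :=
    hG.cont_g.comp_continuous (f := fun x : Sph d => (s, (x : E d))) (by fun_prop)
      fun x => ⟨hs, x.2⟩
  unfold quad
  refine continuous_finset_sum _ fun i _ => continuous_finset_sum _ fun j _ => ?_
  have h3 : Continuous fun x : Sph d => m.g s (x : E d) i j :=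
    (continuous_apply_apply i j).comp h1
  have h4 : ∀ i, Continuous fun x : Sph d =>
      (v - (inner ℝ (x : E d) v : ℝ) • (x : E d) : E d) i := fun i => by
    fun_prop
  exact (h3.mul (h4 i)).mul (h4 j)

/-- the case of equality -/
theorem frame_rigid (hR0 : 0 < R) (hR : R ≤ π / 2) (hG : Good R m) (hNS : NonShort R m)
    (hF : Fermi R m) (hP : PosDef R m)
    (hfr : ∀ x : E d, ‖x‖ = 1 → ∃ w : Fin d → E d, Frame R m x w)
    (heq : vol R m = hemiCollar d R) : IsRound R m := by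
  have hfin : ∫⁻ _ : Sph d, ENNReal.ofReal (∫ θ in (0 : ℝ)..R, Real.cos θ ^ d) ∂(σ d) ≠ ⊤ := by
    rw [lintegral_const]
    exact ENNReal.mul_ne_top ENNReal.ofReal_ne_top (measure_ne_top _ _)
  rw [vol_swap hG, hemi_eq] at heq
  have hmeas : AEMeasurable (fun x : Sph d =>
      ∫⁻ s in Ioo 0 R, ENNReal.ofReal (√(detTan (m.g s x) x))) (σ d) :=
    (dens_meas hG).prod_swap.lintegral_prod_right'
  have h1 := ae_eq_of_ae_le_of_lintegral_le (μ := σ d)
    (f := fun _ : Sph d => ENNReal.ofReal (∫ θ in (0 : ℝ)..R, Real.cos θ ^ d))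
    (g := fun x : Sph d => ∫⁻ s in Ioo 0 R, ENNReal.ofReal (√(detTan (m.g s x) x)))
    (Eventually.of_forall fun x => by
      have hx : ‖(x : E d)‖ = 1 := mem_sphere_zero_iff_norm.1 x.2
      obtain ⟨w, hw⟩ := hfr x hx
      exact hw.point hR0 hR hG hNS hF hP hx) hfin hmeas heq.le
  have h2 : ∀ s ∈ Ico 0 R, ∀ x : Sph d, ∀ v : E d, inner ℝ (x : E d) v = 0 →
      quad (m.g s x) v = Real.cos s ^ 2 * ‖v‖ ^ 2 := by
    intro s hs x v hv
    have h3 : (fun y : Sph d => quad (m.g s y) (v - (inner ℝ (y : E d) v : ℝ) • (y : E d)))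
        =ᵐ[σ d] fun y : Sph d =>
          Real.cos s ^ 2 * ‖v - (inner ℝ (y : E d) v : ℝ) • (y : E d)‖ ^ 2 := by
      filter_upwards [h1] with y hy
      have hy1 : ‖(y : E d)‖ = 1 := mem_sphere_zero_iff_norm.1 y.2
      obtain ⟨w, hw⟩ := hfr y hy1
      refine hw.point_eq hR0 hR hG hNS hF hP hy1 hy.ge hs ?_
      rw [inner_sub_right, inner_smul_right, real_inner_self_eq_norm_sq, hy1]
      ring
    have hc2 : Continuous fun y : Sph d =>
        Real.cos s ^ 2 * ‖v - (inner ℝ (y : E d) v : ℝ) • (y : E d)‖ ^ 2 := by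
      fun_prop
    have h4 := ((proj_cont hG hs v).ae_eq_iff_eq (σ d) hc2).1 h3
    have h5 := congrFun h4 x
    simp only [hv, zero_smul, sub_zero] at h5
    exact h5
  intro s hs x hx p v hv
  obtain ⟨h3, h4⟩ := hF s hs x hx
  unfold Met.sq
  rw [h3, h4 _ hv, h2 s hs ⟨x, hx⟩ v hv]
  ring

end Pool.Agent.Q196.FE
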