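import Pool.Agent.Q196.FE.Dom

/-! # Products of dominating functions -/

set_option autoImplicit false

open Real Set MeasureTheory Metric Filter Topology Module
open scoped ENNReal

namespace Pool.Agent.Q196.FE

section

variable {ι : Type} [Fintype ι] [DecidableEq ι] {g : ι → ℝ → ℝ} {q : ℝ → ℝ} {A : ℝ} {k : ι → ℕ}

lemma prod_step (hg : ∀ i, Continuous (g i)) (hg0 : ∀ i a, 0 ≤ g i a) (hq : Continuous q)
    (hq0 : ∀ a, 0 ≤ q a) (hqa : Antitone q) (hdom : ∀ i, Dom A (g i) q) (hk : ∀ i, 0 < k i)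
    (s : Finset ι) (hs : ∀ j ∈ s, Antitone (g j)) (i : ι) (hi : i ∉ s) :
    Dom A (fun a => q a ^ (∑ j ∈ (insert i s)ᶜ, k j) * ∏ j ∈ insert i s, g j a ^ k j)
      (fun a => q a ^ (∑ j ∈ sᶜ, k j) * ∏ j ∈ s, g j a ^ k j) := by
  have hW : Continuous fun a => q a ^ (∑ j ∈ (insert i s)ᶜ, k j) * ∏ j ∈ s, g j a ^ k j :=
    (hq.pow _).mul (continuous_finset_prod _ fun j _ => (hg j).pow _)
  have hW0 : ∀ a, 0 ≤ q a ^ (∑ j ∈ (insert i s)ᶜ, k j) * ∏ j ∈ s, g j a ^ k j := fun a =>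
    mul_nonneg (pow_nonneg (hq0 a) _) (Finset.prod_nonneg fun j _ => pow_nonneg (hg0 j a) _)
  have hWa : Antitone fun a => q a ^ (∑ j ∈ (insert i s)ᶜ, k j) * ∏ j ∈ s, g j a ^ k j := by
    intro a b hab
    refine mul_le_mul (pow_le_pow_left₀ (hq0 b) (hqa hab) _) ?_
      (Finset.prod_nonneg fun j _ => pow_nonneg (hg0 j b) _) (pow_nonneg (hq0 a) _)
    exact Finset.prod_le_prod (fun j _ => pow_nonneg (hg0 j b) _)
      fun j hj => pow_le_pow_left₀ (hg0 j b) (hs j hj hab) _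
  have h1 := dom_pow (hg i) hq (hg0 i) hq0 hqa (hdom i) (k i) (hk i)
  have h2 := dom_weight ((hg i).pow (k i)) (hq.pow (k i)) hW (fun a => pow_nonneg (hg0 i a) _)
    (fun a => pow_nonneg (hq0 a) _) hW0 hWa h1
  have h3 : ∑ j ∈ sᶜ, k j = k i + ∑ j ∈ (insert i s)ᶜ, k j := by
    have h4 : (insert i s)ᶜ = sᶜ.erase i := by
      ext j
      simp only [Finset.mem_compl, Finset.mem_insert, Finset.mem_erase]
      tauto
    rw [h4, Finset.add_sum_erase _ _ (Finset.mem_compl.2 hi)]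
  intro c hc
  have h5 := h2 c hc
  simp only [Pi.pow_apply] at h5
  refine le_trans (le_of_eq ?_) (h5.trans (le_of_eq ?_))
  · refine lintegral_congr fun a => ?_
    congr 1
    show q a ^ (∑ j ∈ sᶜ, k j) * ∏ j ∈ s, g j a ^ k j = _
    rw [h3, pow_add]
    ring
  · refine lintegral_congr fun a => ?_
    congr 1
    show _ = q a ^ (∑ j ∈ (insert i s)ᶜ, k j) * ∏ j ∈ insert i s, g j a ^ k j
    rw [Finset.prod_insert hi]
    ring

lemma dom_trans {p q r : ℝ → ℝ} (h1 : Dom A p q) (h2 : Dom A q r) : Dom A p r :=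
  fun c hc => (h2 c hc).trans (h1 c hc)

lemma prod_dom (hg : ∀ i, Continuous (g i)) (hg0 : ∀ i a, 0 ≤ g i a) (hq : Continuous q)
    (hq0 : ∀ a, 0 ≤ q a) (hqa : Antitone q) (hdom : ∀ i, Dom A (g i) q) (hk : ∀ i, 0 < k i)
    (i₀ : ι) (hmono : ∀ i, i ≠ i₀ → Antitone (g i)) :
    Dom A (fun a => ∏ j, g j a ^ k j) (fun a => q a ^ (∑ j, k j)) := by
  have h1 : ∀ s : Finset ι, (∀ j ∈ s, Antitone (g j)) →
      Dom A (fun a => q a ^ (∑ j ∈ sᶜ, k j) * ∏ j ∈ s, g j a ^ k j)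
        (fun a => q a ^ (∑ j, k j)) := by
    intro s
    induction s using Finset.induction_on with
    | empty =>
      intro _ c _
      simp
    | insert i s hi ih =>
      intro hs
      exact dom_trans (prod_step hg hg0 hq hq0 hqa hdom hk s
        (fun j hj => hs j (Finset.mem_insert_of_mem hj)) i hi)
        (ih fun j hj => hs j (Finset.mem_insert_of_mem hj))
  have h2 := h1 (Finset.univ.erase i₀) fun j hj => hmono j (Finset.ne_of_mem_erase hj)
  have h3 := prod_step hg hg0 hq hq0 hqa hdom hk (Finset.univ.erase i₀)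
    (fun j hj => hmono j (Finset.ne_of_mem_erase hj)) i₀ (Finset.notMem_erase _ _)
  have h4 := dom_trans h3 h2
  rw [Finset.insert_erase (Finset.mem_univ i₀)] at h4
  simpa using h4

end

/-- clamping to `[0, A]` -/
noncomputable def clp (A t : ℝ) : ℝ := max 0 (min t A)

lemma clp_mem {A : ℝ} (hA : 0 ≤ A) (t : ℝ) : clp A t ∈ Icc 0 A :=
  ⟨le_max_left _ _, max_le hA (min_le_right _ _)⟩

lemma clp_eq {A t : ℝ} (h : t ∈ Icc 0 A) : clp A t = t := by
  unfold clp
  rw [min_eq_left h.2, max_eq_right h.1]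

lemma clp_cont (A : ℝ) : Continuous (clp A) := by
  unfold clp
  fun_prop

lemma clp_mono (A : ℝ) : Monotone (clp A) := fun a b h =>
  max_le_max le_rfl (min_le_min h le_rfl)

end Pool.Agent.Q196.FE
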