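import Pool.Agent.Q196.FE.Prd

/-! # The tangent line inequality for a product, and its deficit -/

set_option autoImplicit false

open Real Set MeasureTheory Metric Filter Topology Module
open scoped ENNReal

namespace Pool.Agent.Q196.FE

open Pool.Agent.Q196.FD

lemma lint_eq {p : ℝ → ℝ} (hp : Continuous p) (hp0 : ∀ a, 0 ≤ p a) {c : ℝ} (hc : 0 ≤ c) :
    ∫⁻ a in Ioc 0 c, ENNReal.ofReal (p a) = ENNReal.ofReal (∫ a in (0 : ℝ)..c, p a) := by
  rw [intervalIntegral.integral_of_le hc, ofReal_integral_eq_lintegral_ofReal]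
  · exact (hp.integrableOn_Icc).mono_set Ioc_subset_Icc_self
  · exact Eventually.of_forall fun a => hp0 a

lemma dom_iff {p q : ℝ → ℝ} {A : ℝ} (hp : Continuous p) (hq : Continuous q) (hp0 : ∀ a, 0 ≤ p a)
    (hq0 : ∀ a, 0 ≤ q a) :
    Dom A p q ↔ ∀ c ∈ Icc 0 A, ∫ a in (0 : ℝ)..c, q a ≤ ∫ a in (0 : ℝ)..c, p a := by
  refine forall₂_congr fun c hc => ?_
  rw [lint_eq hp hp0 hc.1, lint_eq hq hq0 hc.1, ENNReal.ofReal_le_ofReal_iff]
  exact intervalIntegral.integral_nonneg hc.1 fun a _ => hp0 a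

section

variable {ι : Type} [Fintype ι] [DecidableEq ι]

lemma prod_ge {y : ι → ℝ} (hy : ∀ i, 0 < y i) (k : ι → ℕ) :
    1 + ∑ i, (k i : ℝ) * (1 - (y i)⁻¹) ≤ ∏ i, y i ^ k i := by
  have hP : 0 < ∏ i, y i ^ k i := Finset.prod_pos fun i _ => pow_pos (hy i) _
  have h1 : Real.log (∏ i, y i ^ k i) = ∑ i, (k i : ℝ) * Real.log (y i) := by
    rw [Real.log_prod fun i _ => (pow_pos (hy i) _).ne']
    exact Finset.sum_congr rfl fun i _ => Real.log_pow _ _
  have h2 : ∑ i, (k i : ℝ) * (1 - (y i)⁻¹) ≤ Real.log (∏ i, y i ^ k i) := by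
    rw [h1]
    exact Finset.sum_le_sum fun i _ =>
      mul_le_mul_of_nonneg_left (Real.one_sub_inv_le_log_of_pos (hy i)) (Nat.cast_nonneg _)
  have h3 := Real.add_one_le_exp (Real.log (∏ i, y i ^ k i))
  rw [Real.exp_log hP] at h3
  linarith

/-- the deficit of the tangent line inequality -/
noncomputable def dl (k : ι → ℕ) (g c : ι → ℝ) : ℝ :=
  ∏ i, g i ^ k i - (∏ i, c i ^ k i) * (1 + ∑ i, (k i : ℝ) * (1 - c i / g i))

lemma prod_eq_one {y : ι → ℝ} (hy : ∀ i, 0 < y i) {k : ι → ℕ} (hk : ∀ i, 0 < k i)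
    (h : ∏ i, y i ^ k i ≤ 1 + ∑ i, (k i : ℝ) * (1 - (y i)⁻¹)) (i : ι) : y i = 1 := by
  have hP : 0 < ∏ i, y i ^ k i := Finset.prod_pos fun i _ => pow_pos (hy i) _
  have h1 : Real.log (∏ i, y i ^ k i) = ∑ i, (k i : ℝ) * Real.log (y i) := by
    rw [Real.log_prod fun i _ => (pow_pos (hy i) _).ne']
    exact Finset.sum_congr rfl fun i _ => Real.log_pow _ _
  have h3 := Real.add_one_le_exp (Real.log (∏ i, y i ^ k i))
  rw [Real.exp_log hP, h1] at h3
  have h4 : ∀ j ∈ Finset.univ, (k j : ℝ) * (1 - (y j)⁻¹) ≤ (k j : ℝ) * Real.log (y j) :=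
    fun j _ => mul_le_mul_of_nonneg_left (Real.one_sub_inv_le_log_of_pos (hy j))
      (Nat.cast_nonneg _)
  have h5 : ∑ i, (k i : ℝ) * (1 - (y i)⁻¹) = ∑ i, (k i : ℝ) * Real.log (y i) :=
    le_antisymm (Finset.sum_le_sum h4) (by linarith)
  have h6 := (Finset.sum_eq_sum_iff_of_le h4).1 h5 i (Finset.mem_univ i)
  have h7 : (0 : ℝ) < k i := Nat.cast_pos.2 (hk i)
  have h8 : 1 - (y i)⁻¹ = Real.log (y i) := mul_left_cancel₀ h7.ne' h6
  by_contra h9
  have h10 := Real.log_lt_sub_one_of_pos (inv_pos.2 (hy i)) fun h11 => h9 (inv_eq_one.1 h11)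
  rw [Real.log_inv] at h10
  linarith

lemma dl_eq {k : ι → ℕ} {g c : ι → ℝ} (hg : ∀ i, 0 < g i) (hc : ∀ i, 0 < c i) :
    dl k g c = (∏ i, c i ^ k i) *
      (∏ i, (g i / c i) ^ k i - (1 + ∑ i, (k i : ℝ) * (1 - (g i / c i)⁻¹))) := by
  have h2 : ∏ i, g i ^ k i = (∏ i, c i ^ k i) * ∏ i, (g i / c i) ^ k i := by
    rw [← Finset.prod_mul_distrib]
    refine Finset.prod_congr rfl fun i _ => ?_
    rw [← mul_pow, mul_div_cancel₀ _ (hc i).ne']
  unfold dl
  rw [h2, mul_sub]
  simp only [inv_div]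

lemma dl_nonneg {k : ι → ℕ} {g c : ι → ℝ} (hg : ∀ i, 0 < g i) (hc : ∀ i, 0 < c i) :
    0 ≤ dl k g c := by
  rw [dl_eq hg hc]
  refine mul_nonneg (Finset.prod_nonneg fun i _ => pow_nonneg (hc i).le _) ?_
  have := prod_ge (y := fun i => g i / c i) (fun i => div_pos (hg i) (hc i)) k
  linarith

lemma eq_of_dl {k : ι → ℕ} {g c : ι → ℝ} (hg : ∀ i, 0 < g i) (hc : ∀ i, 0 < c i)
    (hk : ∀ i, 0 < k i) (h : dl k g c = 0) (i : ι) : g i = c i := by
  have hP0 : 0 < ∏ i, c i ^ k i := Finset.prod_pos fun i _ => pow_pos (hc i) _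
  rw [dl_eq hg hc] at h
  have h1 : ∏ i, (g i / c i) ^ k i - (1 + ∑ i, (k i : ℝ) * (1 - (g i / c i)⁻¹)) = 0 := by
    rcases mul_eq_zero.1 h with h1 | h1
    · exact absurd h1 hP0.ne'
    · exact h1
  have h2 := prod_eq_one (y := fun i => g i / c i) (fun i => div_pos (hg i) (hc i)) hk
    (by linarith) i
  exact (div_eq_one_iff_eq (hc i).ne').1 h2

/-- the tangent line inequality for the integrals, with the deficit -/
lemma tan_int' {k : ι → ℕ} {g c : ι → ℝ → ℝ} {A : ℝ} (hA : 0 ≤ A) (hgc : ∀ i, Continuous (g i))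
    (hcc : ∀ i, Continuous (c i)) (hg : ∀ i a, 0 < g i a) (hc : ∀ i a, 0 < c i a)
    (hca : ∀ i, Antitone (c i)) (hk : ∀ i, 0 < k i)
    (hdom : ∀ i, Dom A (c i) fun a => 1 / g i a * c i a ^ 2) :
    (∫ a in (0 : ℝ)..A, ∏ i, c i a ^ k i) +
      (∫ a in (0 : ℝ)..A, dl k (fun i => g i a) (fun i => c i a)) ≤
      ∫ a in (0 : ℝ)..A, ∏ i, g i a ^ k i := by
  set w : ι → ℝ → ℝ := fun i a => c i a ^ (k i - 1) * ∏ j ∈ Finset.univ.erase i, c j a ^ k j
    with hw
  have hwc : ∀ i, Continuous (w i) := fun i =>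
    ((hcc i).pow _).mul (continuous_finset_prod _ fun j _ => (hcc j).pow _)
  have hw0 : ∀ i a, 0 ≤ w i a := fun i a =>
    mul_nonneg (pow_nonneg (hc i a).le _) (Finset.prod_nonneg fun j _ => pow_nonneg (hc j a).le _)
  have hwa : ∀ i, Antitone (w i) := fun i a b hab => by
    refine mul_le_mul (pow_le_pow_left₀ (hc i b).le (hca i hab) _) ?_
      (Finset.prod_nonneg fun j _ => pow_nonneg (hc j b).le _) (pow_nonneg (hc i a).le _)
    exact Finset.prod_le_prod (fun j _ => pow_nonneg (hc j b).le _)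
      fun j _ => pow_le_pow_left₀ (hc j b).le (hca j hab) _
  have hqc : ∀ i, Continuous fun a => 1 / g i a * c i a ^ 2 := fun i =>
    (continuous_const.div (hgc i) fun a => (hg i a).ne').mul ((hcc i).pow 2)
  have hq0 : ∀ i a, 0 ≤ 1 / g i a * c i a ^ 2 := fun i a =>
    mul_nonneg (one_div_nonneg.2 (hg i a).le) (sq_nonneg _)
  have h1 : ∀ i, ∫ a in (0 : ℝ)..A, 1 / g i a * c i a ^ 2 * w i a ≤
      ∫ a in (0 : ℝ)..A, c i a * w i a := by
    intro i
    have h2 := dom_weight (hcc i) (hqc i) (hwc i) (fun a => (hc i a).le) (hq0 i) (hw0 i) (hwa i)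
      (hdom i)
    exact (dom_iff ((hcc i).mul (hwc i)) ((hqc i).mul (hwc i))
      (fun a => mul_nonneg (hc i a).le (hw0 i a)) fun a => mul_nonneg (hq0 i a) (hw0 i a)).1 h2 A
      ⟨hA, le_rfl⟩
  have hcP : Continuous fun a => ∏ i, c i a ^ k i :=
    continuous_finset_prod _ fun j _ => (hcc j).pow _
  have hcG : Continuous fun a => ∏ i, g i a ^ k i :=
    continuous_finset_prod _ fun j _ => (hgc j).pow _
  have hc1 : ∀ i, Continuous fun a => (k i : ℝ) * (c i a * w i a) := fun i =>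
    continuous_const.mul ((hcc i).mul (hwc i))
  have hc2 : ∀ i, Continuous fun a => (k i : ℝ) * (1 / g i a * c i a ^ 2 * w i a) := fun i =>
    continuous_const.mul ((hqc i).mul (hwc i))
  have hwP : ∀ i a, c i a * w i a = ∏ j, c j a ^ k j := by
    intro i a
    rw [hw, ← Finset.mul_prod_erase Finset.univ _ (Finset.mem_univ i)]
    show c i a * (c i a ^ (k i - 1) * ∏ j ∈ Finset.univ.erase i, c j a ^ k j) = _
    rw [← mul_assoc, ← pow_succ', Nat.sub_add_cancel (hk i)]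
  have hdl : ∀ a, ∏ i, c i a ^ k i + dl k (fun i => g i a) (fun i => c i a) +
      ∑ i, (k i : ℝ) * (c i a * w i a) =
      ∏ i, g i a ^ k i + ∑ i, (k i : ℝ) * (1 / g i a * c i a ^ 2 * w i a) := by
    intro a
    have h2 : ∀ i, 1 / g i a * c i a ^ 2 * w i a = (∏ j, c j a ^ k j) * (c i a / g i a) := by
      intro i
      rw [← hwP i a]
      ring
    simp only [hwP, h2]
    unfold dl
    have h4 : (∏ i, c i a ^ k i) * (1 + ∑ i, (k i : ℝ) * (1 - c i a / g i a)) =
        ∏ i, c i a ^ k i + ∑ i, (k i : ℝ) * (∏ j, c j a ^ k j) -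
          ∑ i, (k i : ℝ) * ((∏ j, c j a ^ k j) * (c i a / g i a)) := by
      rw [mul_add, mul_one, Finset.mul_sum, add_sub_assoc, ← Finset.sum_sub_distrib]
      congr 1
      refine Finset.sum_congr rfl fun i _ => ?_
      ring
    rw [h4]
    ring
  have hdc : Continuous fun a => dl k (fun i => g i a) (fun i => c i a) := by
    unfold dl
    refine hcG.sub (hcP.mul (continuous_const.add (continuous_finset_sum _ fun i _ =>
      continuous_const.mul (continuous_const.sub ((hcc i).div (hgc i) fun a => (hg i a).ne')))))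
  have h3 : ∫ a in (0 : ℝ)..A, (∏ i, c i a ^ k i + dl k (fun i => g i a) (fun i => c i a) +
      ∑ i, (k i : ℝ) * (c i a * w i a)) = ∫ a in (0 : ℝ)..A, (∏ i, g i a ^ k i +
        ∑ i, (k i : ℝ) * (1 / g i a * c i a ^ 2 * w i a)) :=
    intervalIntegral.integral_congr fun a _ => hdl a
  have hcs : Continuous fun a =>
      ∏ i, c i a ^ k i + dl k (fun i => g i a) (fun i => c i a) := hcP.add hdc
  rw [intervalIntegral.integral_add (hcs.intervalIntegrable _ _)
      ((continuous_finset_sum _ fun i _ => hc1 i).intervalIntegrable _ _),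
    intervalIntegral.integral_add (hcP.intervalIntegrable _ _) (hdc.intervalIntegrable _ _),
    intervalIntegral.integral_add (hcG.intervalIntegrable _ _)
      ((continuous_finset_sum _ fun i _ => hc2 i).intervalIntegrable _ _),
    intervalIntegral.integral_finset_sum fun i _ => (hc1 i).intervalIntegrable _ _,
    intervalIntegral.integral_finset_sum fun i _ => (hc2 i).intervalIntegrable _ _] at h3
  simp only [intervalIntegral.integral_const_mul] at h3
  have h4 : ∑ i, (k i : ℝ) * ∫ a in (0 : ℝ)..A, 1 / g i a * c i a ^ 2 * w i a ≤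
      ∑ i, (k i : ℝ) * ∫ a in (0 : ℝ)..A, c i a * w i a :=
    Finset.sum_le_sum fun i _ => mul_le_mul_of_nonneg_left (h1 i) (Nat.cast_nonneg _)
  linarith

end

/-- a factor which is its comparison function is the cosine -/
lemma cos_of_eq {g : ℝ → ℝ} (hc : Continuous g) (hp : ∀ t, 0 < g t) {A : ℝ} (hA : 0 ≤ A)
    (hA2 : A < π / 2) (h : ∀ a ∈ Icc 0 A, g a = 1 / Real.cosh (uu g a)) : g A = Real.cos A := by
  have hd : ∀ a, HasDerivAt (fun a => Real.arctan (Real.sinh (uu g a)))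
      (1 / (1 + Real.sinh (uu g a) ^ 2) * (Real.cosh (uu g a) * (1 / g a))) a := fun a =>
    (Real.hasDerivAt_arctan _).comp a ((Real.hasDerivAt_sinh _).comp a (hasDerivAt_uu hc hp a))
  have hcont : Continuous fun a =>
      1 / (1 + Real.sinh (uu g a) ^ 2) * (Real.cosh (uu g a) * (1 / g a)) := by
    have h12 := uu_continuous hc hp
    refine Continuous.mul (continuous_const.div ?_ ?_) (Continuous.mul ?_
      (continuous_const.div hc fun t => (hp t).ne'))
    · exact continuous_const.add ((Real.continuous_sinh.comp h12).pow 2)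
    · intro x
      positivity
    · exact Real.continuous_cosh.comp h12
  have h1 := intervalIntegral.integral_eq_sub_of_hasDerivAt (a := 0) (b := A)
    (fun x _ => hd x) (hcont.intervalIntegrable _ _)
  have h2 : ∫ a in (0 : ℝ)..A, 1 / (1 + Real.sinh (uu g a) ^ 2) *
      (Real.cosh (uu g a) * (1 / g a)) = ∫ _ in (0 : ℝ)..A, (1 : ℝ) := by
    refine intervalIntegral.integral_congr fun a ha => ?_
    rw [uIcc_of_le hA] at ha
    have h3 := h a ha
    have h4 := Real.cosh_sq (uu g a)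
    have h5 := (Real.cosh_pos (uu g a)).ne'
    have h6 : (1 : ℝ) + Real.sinh (uu g a) ^ 2 = Real.cosh (uu g a) ^ 2 := by rw [h4]; ring
    show 1 / (1 + Real.sinh (uu g a) ^ 2) * (Real.cosh (uu g a) * (1 / g a)) = 1
    rw [h6]
    have h7 : 1 / g a = Real.cosh (uu g a) := by rw [h3, one_div_one_div]
    rw [h7]
    field_simp
  rw [h2, uu_zero, Real.sinh_zero, Real.arctan_zero] at h1
  simp only [intervalIntegral.integral_const, sub_zero, smul_eq_mul, mul_one] at h1
  have h9 : Real.cos A = 1 / Real.cosh (uu g A) := by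
    conv_lhs => rw [h1]
    rw [Real.cos_arctan, add_comm, ← Real.cosh_sq, Real.sqrt_sq (Real.cosh_pos _).le]
  rw [h9]
  exact h A ⟨hA, le_rfl⟩

end Pool.Agent.Q196.FE
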