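import Pool.Agent.Q196.FE.Herm

/-! # Metrics which are invariant under the unitary group -/

set_option autoImplicit false

open Real Set MeasureTheory Metric Filter Topology Module
open scoped ENNReal

namespace Pool.Agent.Q196.FE

open Pool.Agent.Y499.HC Pool.Agent.Y499.HR

variable {d : ℕ} {J : E d →ₗ[ℝ] E d} {R : ℝ} {m : Met d}

lemma quad_para (g : Matrix (Fin (d + 1)) (Fin (d + 1)) ℝ) (u v : E d) :
    quad g (u + v) + quad g (u - v) = 2 * quad g u + 2 * quad g v := by
  unfold quad
  rw [← Finset.sum_add_distrib, Finset.mul_sum, Finset.mul_sum, ← Finset.sum_add_distrib]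
  refine Finset.sum_congr rfl fun i _ => ?_
  rw [← Finset.sum_add_distrib, Finset.mul_sum, Finset.mul_sum, ← Finset.sum_add_distrib]
  refine Finset.sum_congr rfl fun j _ => ?_
  simp only [PiLp.add_apply, PiLp.sub_apply]
  ring

lemma quad_zero' (g : Matrix (Fin (d + 1)) (Fin (d + 1)) ℝ) : quad g (0 : E d) = 0 := by
  have := quad_smul g 0 (0 : E d)
  simpa using this

lemma quad_neg' (g : Matrix (Fin (d + 1)) (Fin (d + 1)) ℝ) (v : E d) :
    quad g (-v) = quad g v := by
  have := quad_smul g (-1) v
  simpa using this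

lemma scale_unit {x : E d} (hx : x ≠ 0) : ‖(‖x‖⁻¹ : ℝ) • x‖ = 1 := by
  rw [norm_smul, norm_inv, norm_norm, inv_mul_cancel₀ (norm_ne_zero_iff.2 hx)]

lemma unitary_form (h : Cpx J) (hU : UInv J R m) {s : ℝ} (hs : s ∈ Ico 0 R) :
    ∃ α β : ℝ, ∀ x : E d, ‖x‖ = 1 → ∀ (a : ℝ) (w : E d), inner ℝ x w = 0 →
      inner ℝ (J x) w = 0 → quad (m.g s x) (a • J x + w) = α * a ^ 2 + β * ‖w‖ ^ 2 := by
  have hx₀ : ‖(EuclideanSpace.single 0 1 : E d)‖ = 1 := by simp
  obtain ⟨x₀, hx₀⟩ : ∃ x : E d, ‖x‖ = 1 := ⟨_, hx₀⟩
  have hJ : ∀ x : E d, ‖x‖ = 1 → quad (m.g s x) (J x) = quad (m.g s x₀) (J x₀) := by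
    intro x hx
    obtain ⟨T, hT, hTx, _⟩ := exists_U h hx₀ hx
    have h6 := hU T hT s hs x₀ hx₀ _ (h.self x₀)
    rwa [hT, hTx] at h6
  have hN : ∃ β : ℝ, ∀ x : E d, ‖x‖ = 1 → ∀ w : E d, inner ℝ x w = 0 → inner ℝ (J x) w = 0 →
      quad (m.g s x) w = β * ‖w‖ ^ 2 := by
    by_cases hex : ∃ x₁ w₁ : E d, ‖x₁‖ = 1 ∧ ‖w₁‖ = 1 ∧ inner ℝ x₁ w₁ = 0 ∧
        inner ℝ (J x₁) w₁ = 0
    · obtain ⟨x₁, w₁, hx₁, hw₁, h1, h2⟩ := hex
      refine ⟨quad (m.g s x₁) w₁, fun x hx w h3 h4 => ?_⟩
      by_cases h0 : w = 0
      · rw [h0, quad_zero', norm_zero]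
        ring
      · have h9 : ‖w‖ ≠ 0 := norm_ne_zero_iff.2 h0
        obtain ⟨T, hT, hTx, hTw⟩ := exists_U2 h (x := x₁) (y := x) (v := w₁)
          (w := (‖w‖⁻¹ : ℝ) • w) hx₁ hx hw₁ (scale_unit h0) h1 h2
          (by rw [inner_smul_right, h3, mul_zero]) (by rw [inner_smul_right, h4, mul_zero])
        have h6 := hU T hT s hs x₁ hx₁ _ h1
        rw [hTx, hTw, quad_smul] at h6
        rw [← h6]
        field_simp
    · refine ⟨0, fun x hx w h3 h4 => ?_⟩
      by_cases h0 : w = 0
      · rw [h0, quad_zero', norm_zero]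
        ring
      · exact absurd ⟨x, (‖w‖⁻¹ : ℝ) • w, hx, scale_unit h0,
          by rw [inner_smul_right, h3, mul_zero], by rw [inner_smul_right, h4, mul_zero]⟩ hex
  obtain ⟨β, hβ⟩ := hN
  refine ⟨quad (m.g s x₀) (J x₀), β, fun x hx a w h3 h4 => ?_⟩
  have hb : quad (m.g s x) (w + a • J x) = quad (m.g s x) w + quad (m.g s x) (a • J x) := by
    obtain ⟨T, hT, hTx, hTJ, hTz⟩ := exists_refl h hx
    have h5 : inner ℝ x (w + a • J x) = 0 := by
      rw [inner_add_right, h3, inner_smul_right, h.self, mul_zero, add_zero]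
    have h6 := hU T hT s hs x hx _ h5
    rw [hTx, map_add, hTz _ h3 h4, map_smul, hTJ] at h6
    have h7 := quad_para (m.g s x) w (a • J x)
    have h8 : quad (m.g s x) (w - a • J x) = quad (m.g s x) (-w + a • J x) := by
      rw [← quad_neg' (m.g s x) (w - a • J x)]
      congr 1
      abel
    rw [h8, h6] at h7
    linarith
  rw [add_comm, hb, quad_smul, hJ x hx, hβ x hx w h3 h4]
  ring

lemma Frame.reindex {ι ι' : Type} [Fintype ι] [Fintype ι'] {x : E d} {w : ι → E d}
    (h : Frame R m x w) (e : ι' ≃ ι) : Frame R m x (w ∘ e) where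
  card := (Fintype.card_congr e).trans h.card
  perp := fun i => h.perp (e i)
  orthn := h.orthn.comp e e.injective
  diag := fun s hs c => by
    have h1 := h.diag s hs (c ∘ e.symm)
    have h2 : ∑ i, (c ∘ e.symm) i • w i = ∑ i, c i • (w ∘ e) i := by
      rw [← e.sum_comp]
      simp
    have h3 : ∑ i, (c ∘ e.symm) i ^ 2 * quad (m.g s x) (w i) =
        ∑ i, c i ^ 2 * quad (m.g s x) ((w ∘ e) i) := by
      rw [← e.sum_comp]
      simp
    rw [h2, h3] at h1
    exact h1
  circ := fun i => h.circ (e i)

lemma unitary_frame (h : Cpx J) (hU : UInv J R m) {x : E d} (hx : ‖x‖ = 1) :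
    ∃ w : Fin d → E d, Frame R m x w := by
  classical
  set S : Submodule ℝ (E d) :=
    (Submodule.span ℝ (Set.range fun o : Option Unit => o.elim x fun _ => J x))ᗮ with hS
  have hmem : ∀ v ∈ S, inner ℝ x v = 0 ∧ inner ℝ (J x) v = 0 := by
    intro v hv
    rw [hS, Submodule.mem_orthogonal] at hv
    exact ⟨hv x (Submodule.subset_span ⟨none, rfl⟩),
      hv (J x) (Submodule.subset_span ⟨some (), rfl⟩)⟩
  have h1 : Orthonormal ℝ fun o : Option Unit => o.elim x fun _ => J x := by
    rw [orthonormal_iff_ite]
    rintro (_ | i) (_ | j)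
    · simp [hx]
    · simpa using h.self x
    · simpa using h.self' x
    · simp [h.norm, hx]
  have h2 := finrank_span_eq_card h1.linearIndependent
  have h3 := Submodule.finrank_add_finrank_orthogonal
    (Submodule.span ℝ (Set.range fun o : Option Unit => o.elim x fun _ => J x))
  rw [h2, Fintype.card_option, Fintype.card_unit, finrank_euclideanSpace, Fintype.card_fin,
    ← hS] at h3
  have hcard : Fintype.card (Option (Fin (finrank ℝ S))) = d := by
    rw [Fintype.card_option, Fintype.card_fin]
    omega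
  set b := stdOrthonormalBasis ℝ S with hb
  have hbx : ∀ j, inner ℝ x (b j : E d) = 0 ∧ inner ℝ (J x) (b j : E d) = 0 := fun j =>
    hmem _ (b j).2
  have hbo : Orthonormal ℝ fun j => (b j : E d) := b.orthonormal.comp_linearIsometry S.subtypeₗᵢ
  have hbn : ∀ j, ‖(b j : E d)‖ = 1 := hbo.norm_eq_one
  have hfr : Frame R m x fun o : Option (Fin (finrank ℝ S)) =>
      o.elim (J x) fun j => (b j : E d) := by
    refine ⟨hcard, ?_, ?_, ?_, ?_⟩
    · rintro (_ | j)
      · exact h.self x
      · exact (hbx j).1
    · rw [orthonormal_iff_ite]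
      rintro (_ | i) (_ | j)
      · simp [h.norm, hx]
      · simpa using (hbx j).2
      · have : inner ℝ (b i : E d) (J x) = 0 := by
          rw [real_inner_comm]
          exact (hbx i).2
        simpa using this
      · have := orthonormal_iff_ite.1 hbo i j
        simpa using this
    · intro s hs c
      obtain ⟨α, β, hαβ⟩ := unitary_form h hU hs
      rw [Fintype.sum_option, Fintype.sum_option]
      have hJx : quad (m.g s x) (J x) = α := by
        have := hαβ x hx 1 0 (inner_zero_right _) (inner_zero_right _)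
        rw [one_smul, add_zero, norm_zero] at this
        rw [this]
        ring
      have hbj : ∀ j, quad (m.g s x) (b j : E d) = β := fun j => by
        have := hαβ x hx 0 (b j) (hbx j).1 (hbx j).2
        rw [zero_smul, zero_add, hbn] at this
        rw [this]
        ring
      have hsum1 : inner ℝ x (∑ j, c (some j) • (b j : E d)) = 0 := by
        rw [inner_sum]
        exact Finset.sum_eq_zero fun j _ => by rw [inner_smul_right, (hbx j).1, mul_zero]
      have hsum2 : inner ℝ (J x) (∑ j, c (some j) • (b j : E d)) = 0 := by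
        rw [inner_sum]
        exact Finset.sum_eq_zero fun j _ => by rw [inner_smul_right, (hbx j).2, mul_zero]
      have hnorm : ‖∑ j, c (some j) • (b j : E d)‖ ^ 2 = ∑ j, c (some j) ^ 2 := by
        rw [← real_inner_self_eq_norm_sq, hbo.inner_sum]
        refine Finset.sum_congr rfl fun j _ => ?_
        simp only [conj_trivial]
        ring
      show quad (m.g s x) (c none • J x + ∑ j, c (some j) • (b j : E d)) =
        c none ^ 2 * quad (m.g s x) (J x) + ∑ j, c (some j) ^ 2 * quad (m.g s x) (b j : E d)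
      rw [hαβ x hx _ _ hsum1 hsum2, hnorm, hJx]
      simp only [hbj]
      rw [← Finset.sum_mul]
      ring
    · rintro (_ | j) s hs a e hae
      · obtain ⟨α, β, hαβ⟩ := unitary_form h hU hs
        show quad (m.g s (a • x + e • J x)) (a • J x - e • x) = quad (m.g s x) (J x)
        have hJJ : a • J x - e • x = (1 : ℝ) • J (a • x + e • J x) + 0 := by
          rw [map_add, map_smul, map_smul, h.sq]
          module
        have hn : ‖a • x + e • J x‖ = 1 := by
          have h4 : ‖a • x + e • J x‖ ^ 2 = 1 ^ 2 := by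
            rw [norm_add_sq_real, inner_smul_left, inner_smul_right, h.self, norm_smul,
              norm_smul, h.norm, hx, mul_pow, mul_pow, Real.norm_eq_abs, Real.norm_eq_abs,
              sq_abs, sq_abs]
            simp only [mul_zero, add_zero, one_pow, mul_one]
            exact hae
          exact (sq_eq_sq₀ (norm_nonneg _) zero_le_one).1 h4
        rw [hJJ, hαβ _ hn 1 0 (inner_zero_right _) (inner_zero_right _)]
        have h5 := hαβ x hx 1 0 (inner_zero_right _) (inner_zero_right _)
        rw [one_smul, add_zero] at h5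
        rw [h5]
      · obtain ⟨α, β, hαβ⟩ := unitary_form h hU hs
        obtain ⟨hb1, hb2⟩ := hbx j
        show quad (m.g s (a • x + e • (b j : E d))) (a • (b j : E d) - e • x) =
          quad (m.g s x) (b j : E d)
        have hb1' : inner ℝ (b j : E d) x = 0 := by rw [real_inner_comm]; exact hb1
        have hlin : ∀ (a : ℝ) (x y : E d), inner ℝ (a • x) y = a * inner ℝ x y :=
          fun a x y => by
            rw [inner_smul_left]
            simp
        have hn : ‖a • x + e • (b j : E d)‖ = 1 := by
          have h4 : ‖a • x + e • (b j : E d)‖ ^ 2 = 1 ^ 2 := by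
            rw [norm_add_sq_real, hlin, inner_smul_right, hb1, norm_smul,
              norm_smul, hbn, hx, mul_pow, mul_pow, Real.norm_eq_abs, Real.norm_eq_abs,
              sq_abs, sq_abs]
            simp only [mul_zero, add_zero, one_pow, mul_one]
            exact hae
          exact (sq_eq_sq₀ (norm_nonneg _) zero_le_one).1 h4
        have hz : ‖a • (b j : E d) - e • x‖ ^ 2 = 1 := by
          rw [norm_sub_sq_real, hlin, inner_smul_right, hb1', norm_smul,
            norm_smul, hbn, hx, mul_pow, mul_pow, Real.norm_eq_abs, Real.norm_eq_abs,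
            sq_abs, sq_abs]
          simp only [mul_zero, sub_zero, one_pow, mul_one]
          exact hae
        have hp1 : inner ℝ (a • x + e • (b j : E d)) (a • (b j : E d) - e • x) = 0 := by
          rw [inner_add_left, inner_sub_right, inner_sub_right, hlin, hlin, hlin, hlin,
            inner_smul_right, inner_smul_right, inner_smul_right, inner_smul_right, hb1, hb1',
            real_inner_self_eq_norm_sq, real_inner_self_eq_norm_sq, hbn, hx]
          ring
        have hb3 : inner ℝ (J (b j : E d)) x = 0 := by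
          rw [h.skew, real_inner_comm, hb2, neg_zero]
        have hp2 : inner ℝ (J (a • x + e • (b j : E d))) (a • (b j : E d) - e • x) = 0 := by
          rw [map_add, map_smul, map_smul, inner_add_left, inner_sub_right, inner_sub_right,
            hlin, hlin, hlin, hlin,
            inner_smul_right, inner_smul_right, inner_smul_right, inner_smul_right, hb2, hb3,
            h.self', h.self']
          ring
        have h5 := hαβ _ hn 0 _ hp1 hp2
        have h6 := hαβ x hx 0 _ hb1 hb2
        rw [zero_smul, zero_add] at h5 h6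
        rw [h5, h6, hz, hbn]
        ring
  exact ⟨_, hfr.reindex (Fintype.equivOfCardEq (by rw [hcard, Fintype.card_fin]))⟩

end Pool.Agent.Q196.FE
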