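import Pool.Agent.Q196.FE.Det

/-! # The volume inequality and the case of equality -/

set_option autoImplicit false

open Real Set MeasureTheory Metric Filter Topology Module
open scoped ENNReal

namespace Pool.Agent.Q196.FE

open Pool.Agent.Y499.HC Pool.Agent.Y499.HR

variable {d : ℕ} {ι : Type} [Fintype ι]

variable {R : ℝ} {m : Met d} {x : E d} {w : ι → E d}

lemma quad_cont (hG : Good R m) (hx : ‖x‖ = 1) (u : E d) :
    ContinuousOn (fun s => quad (m.g s x) u) (Ico 0 R) := by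
  have h1 : ContinuousOn (fun s => m.g s x) (Ico 0 R) :=
    hG.cont_g.comp (f := fun s : ℝ => (s, x)) (by fun_prop)
      fun s hs => ⟨hs, mem_sphere_zero_iff_norm.2 hx⟩
  unfold quad
  refine continuousOn_finset_sum _ fun i _ => continuousOn_finset_sum _ fun j _ => ?_
  have h2 : ContinuousOn (fun s => m.g s x i j) (Ico 0 R) :=
    (continuous_apply_apply i j).comp_continuousOn h1
  exact (h2.mul continuousOn_const).mul continuousOn_const

lemma Frame.quad_pos (h : Frame R m x w) (hP : PosDef R m) (hx : ‖x‖ = 1) {s : ℝ}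
    (hs : s ∈ Ico 0 R) (i : ι) : 0 < quad (m.g s x) (w i) :=
  hP s hs x hx _ (h.perp i) (h.orthn.ne_zero i)

lemma Frame.dirs (h : Frame R m x w) (hG : Good R m) (hP : PosDef R m) (hx : ‖x‖ = 1) :
    Dirs R m x w fun i s => √(quad (m.g s x) (w i)) where
  card := h.card
  norm := hx
  unit := h.orthn.norm_eq_one
  perp := h.perp
  circ := h.circ
  val := fun i s hs => Real.sq_sqrt (h.quad_pos hP hx hs i).le
  cont := fun i => (quad_cont hG hx (w i)).sqrt
  pos := fun i s hs => Real.sqrt_pos.2 (h.quad_pos hP hx hs i)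

lemma Frame.sqrt_det (h : Frame R m x w) (hG : Good R m) (hP : PosDef R m) (hx : ‖x‖ = 1) {s : ℝ}
    (hs : s ∈ Ico 0 R) : √(detTan (m.g s x) x) = ∏ i, √(quad (m.g s x) (w i)) := by
  rw [detTan_eq (hG.symm s hs x (mem_sphere_zero_iff_norm.2 hx)) hx h.card h.perp h.orthn
    (h.diag s hs)]
  have h2 : ∏ i, quad (m.g s x) (w i) = (∏ i, √(quad (m.g s x) (w i))) ^ 2 := by
    rw [← Finset.prod_pow]
    exact Finset.prod_congr rfl fun i _ => (Real.sq_sqrt (h.quad_pos hP hx hs i).le).symm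
  rw [h2, Real.sqrt_sq (Finset.prod_nonneg fun i _ => Real.sqrt_nonneg _)]

lemma Frame.int_eq (h : Frame R m x w) (hG : Good R m) (hP : PosDef R m) (hx : ‖x‖ = 1) :
    ∫⁻ s in Ioo 0 R, ENNReal.ofReal (√(detTan (m.g s x) x)) =
      ∫⁻ s in Ioo 0 R, ENNReal.ofReal (∏ i, √(quad (m.g s x) (w i))) := by
  refine setLIntegral_congr_fun measurableSet_Ioo fun s hs => ?_
  rw [h.sqrt_det hG hP hx ⟨hs.1.le, hs.2⟩]

lemma Frame.point (h : Frame R m x w) (hR0 : 0 < R) (hR : R ≤ π / 2) (hG : Good R m)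
    (hNS : NonShort R m) (hF : Fermi R m) (hP : PosDef R m) (hx : ‖x‖ = 1) :
    ENNReal.ofReal (∫ θ in (0 : ℝ)..R, Real.cos θ ^ d) ≤
      ∫⁻ s in Ioo 0 R, ENNReal.ofReal (√(detTan (m.g s x) x)) := by
  rw [h.int_eq hG hP hx]
  exact one_dim hR0 hR hNS hF (h.dirs hG hP hx)

lemma Frame.point_eq (h : Frame R m x w) (hR0 : 0 < R) (hR : R ≤ π / 2) (hG : Good R m)
    (hNS : NonShort R m) (hF : Fermi R m) (hP : PosDef R m) (hx : ‖x‖ = 1)
    (heq : ∫⁻ s in Ioo 0 R, ENNReal.ofReal (√(detTan (m.g s x) x)) ≤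
      ENNReal.ofReal (∫ θ in (0 : ℝ)..R, Real.cos θ ^ d)) {s : ℝ} (hs : s ∈ Ico 0 R) {v : E d}
    (hv : inner ℝ x v = 0) : quad (m.g s x) v = Real.cos s ^ 2 * ‖v‖ ^ 2 := by
  rw [h.int_eq hG hP hx] at heq
  have h1 : ∀ i, √(quad (m.g s x) (w i)) = Real.cos s := fun i =>
    one_dim_eq hR0 hR hNS hF (h.dirs hG hP hx) heq i hs
  have h2 : ∀ i, quad (m.g s x) (w i) = Real.cos s ^ 2 := fun i => by
    rw [← h1 i, Real.sq_sqrt (h.quad_pos hP hx hs i).le]
  obtain ⟨ob, ho, hob⟩ := exists_ob hx h.card h.perp h.orthn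
  have h3 := ob.sum_repr' v
  rw [Fintype.sum_option, ho, hv, zero_smul, zero_add] at h3
  simp only [hob] at h3
  have h4 := ob.sum_sq_norm_inner_right v
  rw [Fintype.sum_option, ho, hv, norm_zero] at h4
  simp only [hob, Real.norm_eq_abs, sq_abs] at h4
  have h5 := h.diag s hs fun i => inner ℝ (w i) v
  rw [h3] at h5
  rw [h5, ← h4]
  simp only [h2]
  rw [← Finset.sum_mul]
  ring

lemma detTan_continuous : Continuous fun q : Matrix (Fin (d + 1)) (Fin (d + 1)) ℝ × E d =>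
    detTan q.1 q.2 := by
  unfold detTan
  have h1 : Continuous fun q : Matrix (Fin (d + 1)) (Fin (d + 1)) ℝ × E d =>
      (Matrix.of fun i j => q.2 i * q.2 j : Matrix (Fin (d + 1)) (Fin (d + 1)) ℝ) := by
    refine continuous_matrix fun i j => ?_
    show Continuous fun q : Matrix (Fin (d + 1)) (Fin (d + 1)) ℝ × E d => q.2 i * q.2 j
    fun_prop
  have h2 : Continuous fun q : Matrix (Fin (d + 1)) (Fin (d + 1)) ℝ × E d =>
      (1 - Matrix.of fun i j => q.2 i * q.2 j : Matrix (Fin (d + 1)) (Fin (d + 1)) ℝ) :=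
    continuous_const.sub h1
  exact (((h2.matrix_mul continuous_fst).matrix_mul h2).add h1).matrix_det

end Pool.Agent.Q196.FE
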